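import Pool.Agent.Q212.BP.Pr

/-!
Random points avoid many of given disjoint small sets (second moment).
-/

set_option autoImplicit false

namespace Pool.Agent.Q212.BP

open Finset

theorem sum_avoid {X I : Type} [Fintype X] [DecidableEq X] [Fintype I] [DecidableEq I]
    (F : Finset X) :
    ∑ y : I → X, (if ∀ s, y s ∉ F then (1 : ℝ) else 0) =
      ((Fintype.card X : ℝ) - F.card) ^ Fintype.card I := by
  classical
  rw [← sum_filter, sum_const, nsmul_eq_mul, mul_one]
  have h1 : (univ.filter fun y : I → X => ∀ s, y s ∉ F) = Fintype.piFinset (fun _ : I => Fᶜ) := by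
    ext y
    simp
  rw [h1, Fintype.card_piFinset, prod_const, card_compl, card_univ]
  push_cast [Nat.cast_sub (card_le_univ F)]
  rfl

theorem cheb {X I : Type} [Fintype X] [Nonempty X] [DecidableEq X] [Fintype I] [DecidableEq I]
    {J : ℕ} (F : Fin J → Finset X) (hF : ∀ j j', j ≠ j' → Disjoint (F j) (F j')) {f : ℕ}
    (hf : ∀ j, (F j).card ≤ f) (hfN : f ≤ Fintype.card X) {η : ℝ} (hη0 : 0 < η)
    (hη : η ≤ (1 - (f : ℝ) / Fintype.card X) ^ Fintype.card I) (hJ : 0 < J) :
    pr (fun y : I → X => ((univ.filter fun j => ∀ s, y s ∉ F j).card : ℝ) ≤ J * η / 2) ≤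
      4 / (J * η) := by
  classical
  set N : ℝ := (Fintype.card X : ℝ) with hN
  set r := Fintype.card I with hr
  have hN0 : 0 < N := by
    rw [hN]
    exact_mod_cast Fintype.card_pos
  set W : ℝ := N ^ r with hW
  have hW0 : 0 < W := pow_pos hN0 r
  let A : Fin J → (I → X) → ℝ := fun j y => if ∀ s, y s ∉ F j then 1 else 0
  let p : Fin J → ℝ := fun j => (1 - ((F j).card : ℝ) / N) ^ r
  have hcardF : ∀ j, ((F j).card : ℝ) ≤ N := fun j => by
    rw [hN]
    exact_mod_cast card_le_univ _
  have hp0 : ∀ j, 0 ≤ p j := by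
    intro j
    apply pow_nonneg
    have := (div_le_one hN0).2 (hcardF j)
    linarith
  have hpη : ∀ j, η ≤ p j := by
    intro j
    refine hη.trans (pow_le_pow_left₀ ?_ ?_ _)
    · have : (f : ℝ) / N ≤ 1 := (div_le_one hN0).2 (by rw [hN]; exact_mod_cast hfN)
      linarith
    · have : ((F j).card : ℝ) / N ≤ f / N := by
        apply div_le_div_of_nonneg_right _ hN0.le
        exact_mod_cast hf j
      linarith
  have hS1 : ∀ j, ∑ y, A j y = W * p j := by
    intro j
    simp only [A, p]
    rw [sum_avoid, ← mul_pow]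
    congr 1
    have h1 : N * (1 - ((F j).card : ℝ) / N) = N - (F j).card := by field_simp
    rw [h1]
  have hS2 : ∀ i j, i ≠ j → ∑ y, A i y * A j y ≤ W * (p i * p j) := by
    intro i j hij
    have h1 : ∀ y, A i y * A j y = if ∀ s, y s ∉ F i ∪ F j then (1 : ℝ) else 0 := by
      intro y
      simp only [A]
      by_cases c1 : ∀ s, y s ∉ F i
      · by_cases c2 : ∀ s, y s ∉ F j
        · rw [if_pos c1, if_pos c2, if_pos, mul_one]
          intro s
          rw [mem_union, not_or]
          exact ⟨c1 s, c2 s⟩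
        · rw [if_neg c2, mul_zero]
          symm
          apply if_neg
          intro h
          apply c2
          intro s hs
          exact h s (mem_union_right _ hs)
      · rw [if_neg c1, zero_mul]
        symm
        apply if_neg
        intro h
        apply c1
        intro s hs
        exact h s (mem_union_left _ hs)
    rw [sum_congr rfl (fun y _ => h1 y), sum_avoid, card_union_of_disjoint (hF i j hij)]
    simp only [p]
    rw [← mul_pow, ← mul_pow]
    have h2 : (((F i).card + (F j).card : ℕ) : ℝ) ≤ N := by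
      rw [← card_union_of_disjoint (hF i j hij), hN]
      exact_mod_cast card_le_univ _
    push_cast at h2 ⊢
    apply pow_le_pow_left₀
    · linarith
    · have h3 : N * ((1 - ((F i).card : ℝ) / N) * (1 - ((F j).card : ℝ) / N)) =
          N - ((F i).card + (F j).card) + (F i).card * (F j).card / N := by
        field_simp
        ring
      rw [h3]
      have h4 : 0 ≤ ((F i).card : ℝ) * (F j).card / N := by positivity
      linarith
  let Z : (I → X) → ℝ := fun y => ∑ j, A j y
  have hZ : ∀ y, Z y = ((univ.filter fun j => ∀ s, y s ∉ F j).card : ℝ) := by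
    intro y
    simp only [Z, A]
    rw [← sum_filter, sum_const, nsmul_eq_mul, mul_one]
  set μ : ℝ := ∑ j, p j with hμ
  have hμJ : J * η ≤ μ := by
    have h1 : ∑ _j : Fin J, η ≤ μ := sum_le_sum (fun j _ => hpη j)
    rwa [sum_const, card_univ, Fintype.card_fin, nsmul_eq_mul] at h1
  have hJη : 0 < (J : ℝ) * η := mul_pos (by exact_mod_cast hJ) hη0
  have hμ0 : 0 < μ := lt_of_lt_of_le hJη hμJ
  have hcard : (Fintype.card (I → X) : ℝ) = W := by
    rw [Fintype.card_fun]
    push_cast
    rfl
  have hM1 : ∑ y, Z y = W * μ := by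
    simp only [Z]
    rw [sum_comm, hμ, mul_sum]
    exact sum_congr rfl (fun j _ => hS1 j)
  have hM2 : ∑ y, Z y ^ 2 ≤ W * (μ + μ ^ 2) := by
    have h1 : ∀ y, Z y ^ 2 = ∑ i, ∑ j, A i y * A j y := by
      intro y
      rw [pow_two]
      simp only [Z]
      rw [sum_mul_sum]
    rw [sum_congr rfl (fun y _ => h1 y), sum_comm]
    have h2 : ∀ i, ∑ y, ∑ j, A i y * A j y ≤ W * (p i + p i * μ) := by
      intro i
      rw [sum_comm]
      have h3 : ∀ j, ∑ y, A i y * A j y ≤ W * ((if i = j then p i else 0) + p i * p j) := by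
        intro j
        by_cases hij : i = j
        · subst hij
          rw [if_pos rfl]
          have h4 : ∀ y, A i y * A i y = A i y := by
            intro y
            simp only [A]
            split_ifs <;> ring
          rw [sum_congr rfl (fun y _ => h4 y), hS1]
          have := mul_nonneg hW0.le (mul_nonneg (hp0 i) (hp0 i))
          linarith
        · rw [if_neg hij, zero_add]
          exact hS2 i j hij
      refine (sum_le_sum (fun j _ => h3 j)).trans (le_of_eq ?_)
      rw [← mul_sum, sum_add_distrib, ← mul_sum, sum_ite_eq, if_pos (mem_univ i)]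
    refine (sum_le_sum (fun i _ => h2 i)).trans (le_of_eq ?_)
    rw [← mul_sum, sum_add_distrib, ← sum_mul]
    ring
  have hV : ∑ y, (Z y - μ) ^ 2 ≤ W * μ := by
    have h1 : ∀ y, (Z y - μ) ^ 2 = Z y ^ 2 - 2 * μ * Z y + μ ^ 2 := fun y => by ring
    rw [sum_congr rfl (fun y _ => h1 y), sum_add_distrib, sum_sub_distrib, ← mul_sum, hM1,
      sum_const, card_univ, nsmul_eq_mul, hcard]
    nlinarith
  -- Markov
  set P : (I → X) → Prop := fun y =>
    ((univ.filter fun j => ∀ s, y s ∉ F j).card : ℝ) ≤ J * η / 2 with hP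
  have hbad : ((univ.filter P).card : ℝ) * (μ ^ 2 / 4) ≤ W * μ := by
    refine le_trans ?_ hV
    have h1 : ∑ y ∈ univ.filter P, μ ^ 2 / 4 ≤ ∑ y ∈ univ.filter P, (Z y - μ) ^ 2 := by
      apply sum_le_sum
      intro y hy
      have h2 : Z y ≤ μ / 2 := by
        rw [hZ]
        have := (mem_filter.1 hy).2
        simp only [hP] at this
        linarith
      have h3 : 0 ≤ μ / 2 - Z y := by linarith
      nlinarith
    rw [sum_const, nsmul_eq_mul] at h1
    exact h1.trans (sum_le_sum_of_subset_of_nonneg (filter_subset _ _) (fun y _ _ => sq_nonneg _))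
  have hfin : pr P ≤ 4 / μ := by
    unfold pr
    rw [hcard, div_le_div_iff₀ hW0 hμ0]
    have h1 : ((univ.filter P).card : ℝ) * μ * (μ / 4) ≤ 4 * W * (μ / 4) := by
      have e1 : ((univ.filter P).card : ℝ) * μ * (μ / 4) =
        ((univ.filter P).card : ℝ) * (μ ^ 2 / 4) := by ring
      rw [e1]
      linarith
    have h2 := le_of_mul_le_mul_right h1 (by linarith)
    convert h2
  refine hfin.trans ?_
  apply div_le_div_of_nonneg_left (by norm_num) hJη hμJ

end Pool.Agent.Q212.BP
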