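import Pool.Agent.Q212.BP.Three

/-!
Ternary maps which preserve the pairs relation of an orbital digraph depend on one variable only.
-/

set_option autoImplicit false

namespace Pool.Agent.Q212.BP

open Finset Pool.Agent.W994.AR

variable {X B : Type}

/-- the symmetric closure -/
def Sy (Ed : X → X → Prop) (a b : X) : Prop := Ed a b ∨ Ed b a

theorem Sy.symm {Ed : X → X → Prop} {a b : X} (h : Sy Ed a b) : Sy Ed b a := Or.symm h

/-- the condition on the values on the cube spanned by three edges -/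
def Cb (Ed : X → X → Prop) (O : B → B → Prop) (f : X → X → X → B) : Prop :=
  ∀ a a' b b' c c', Ed a a' → Ed b b' → Ed c c' →
    O (f a b c) (f a' b' c') ∧
    ((f a' b c = f a b c ∧ f a b' c' = f a' b' c') ∨
      (f a' b c = f a' b' c' ∧ f a b' c' = f a b c)) ∧
    ((f a b' c = f a b c ∧ f a' b c' = f a' b' c') ∨
      (f a b' c = f a' b' c' ∧ f a' b c' = f a b c)) ∧
    ((f a b c' = f a b c ∧ f a' b' c = f a' b' c') ∨
      (f a b c' = f a' b' c' ∧ f a' b' c = f a b c))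

theorem Cb.swap12 {Ed : X → X → Prop} {O : B → B → Prop} {f : X → X → X → B} (h : Cb Ed O f) :
    Cb Ed O (fun b a c => f a b c) := by
  intro a a' b b' c c' ha hb hc
  obtain ⟨h0, h1, h2, h3⟩ := h b b' a a' c c' hb ha hc
  exact ⟨h0, h2, h1, h3⟩

theorem Cb.swap13 {Ed : X → X → Prop} {O : B → B → Prop} {f : X → X → X → B} (h : Cb Ed O f) :
    Cb Ed O (fun c b a => f a b c) := by
  intro a a' b b' c c' ha hb hc
  obtain ⟨h0, h1, h2, h3⟩ := h c c' b b' a a' hc hb ha
  exact ⟨h0, h3, h2, h1⟩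

theorem Cb.two {Ed : X → X → Prop} {O : B → B → Prop} (hO : ∀ x, ¬ O x x) {f : X → X → X → B}
    (h : Cb Ed O f) {a a' b b' c c' : X} (ha : Sy Ed a a') (hb : Sy Ed b b') (hc : Sy Ed c c') :
    f a b c ≠ f a' b' c' ∧ (f a' b c = f a b c ∨ f a' b c = f a' b' c') := by
  have hne : ∀ x y, O x y → x ≠ y := by
    rintro x y hxy rfl
    exact hO _ hxy
  rcases ha with ha | ha <;> rcases hb with hb | hb <;> rcases hc with hc | hc <;>
    obtain ⟨h0, h1, h2, h3⟩ := h _ _ _ _ _ _ ha hb hc <;>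
    have h0' := hne _ _ h0 <;>
    grind

/-- moving along the first coordinate -/
theorem Cb.fwd {Ed : X → X → Prop} {O : B → B → Prop} (hO : ∀ x, ¬ O x x) {f : X → X → X → B}
    (h : Cb Ed O f) (hn : ∀ x, ∃ y, Sy Ed x y) {a a' a'' b c : X} (ha : Sy Ed a a')
    (ha' : Sy Ed a' a'') (he : f a' b c = f a b c) : f a'' b c = f a' b c := by
  obtain ⟨b', hb⟩ := hn b
  obtain ⟨c', hc⟩ := hn c
  have h1 := h.two hO ha hb hc
  have h2 := h.two hO ha'.symm hb hc
  grind

theorem Cb.diag {Ed : X → X → Prop} {O : B → B → Prop} (hO : ∀ x, ¬ O x x) {f : X → X → X → B}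
    (h : Cb Ed O f) {a a' b b' c c' : X} (ha : Sy Ed a a') (hb : Sy Ed b b') (hc : Sy Ed c c')
    (he : f a' b c = f a b c) : f a' b' c' = f a b' c' := by
  have h1 := h.two hO ha hb hc
  have h2 := h.two hO ha.symm hb hc
  have h3 := h.two hO ha hb.symm hc.symm
  have h4 := h.two hO ha.symm hb.symm hc.symm
  grind

/-- the first coordinate does not matter at `(b, c)` -/
def N1 (Ed : X → X → Prop) (f : X → X → X → B) (b c : X) : Prop :=
  ∀ a a', Sy Ed a a' → f a' b c = f a b c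

/-- connected -/
def Conn (Ed : X → X → Prop) : Prop :=
  ∀ P : X → Prop, (∀ x y, Sy Ed x y → P x → P y) → ∀ x y, P x → P y

theorem Cb.n1 {Ed : X → X → Prop} {O : B → B → Prop} (hO : ∀ x, ¬ O x x) {f : X → X → X → B}
    (h : Cb Ed O f) (hn : ∀ x, ∃ y, Sy Ed x y) (hc : Conn Ed) {a a' b c : X} (ha : Sy Ed a a')
    (he : f a' b c = f a b c) : N1 Ed f b c := by
  have h1 : ∀ x, ∀ y, Sy Ed x y → f y b c = f x b c := by
    intro x
    refine hc (fun x => ∀ y, Sy Ed x y → f y b c = f x b c) ?_ a' x ?_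
    · intro x y hxy hx z hz
      exact h.fwd hO hn hxy hz (hx y hxy)
    · intro y hy
      exact h.fwd hO hn ha hy he
  exact fun x y hxy => h1 x y hxy

theorem Cb.n1_diag {Ed : X → X → Prop} {O : B → B → Prop} (hO : ∀ x, ¬ O x x) {f : X → X → X → B}
    (h : Cb Ed O f) {b b' c c' : X} (hN : N1 Ed f b c) (hb : Sy Ed b b') (hc : Sy Ed c c') :
    N1 Ed f b' c' := fun _ _ ha => h.diag hO ha hb hc (hN _ _ ha)

theorem Cb.n1_col {Ed : X → X → Prop} {O : B → B → Prop} (hO : ∀ x, ¬ O x x) {f : X → X → X → B}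
    (h : Cb Ed O f) (hn : ∀ x, ∃ y, Sy Ed x y) (hc : Conn Ed) {c : X} (hN : ∀ b, N1 Ed f b c) :
    ∀ b c, N1 Ed f b c := by
  intro b c'
  refine hc (fun z => ∀ b, N1 Ed f b z) ?_ c c' hN b
  intro z z' hz hN b
  obtain ⟨b', hb⟩ := hn b
  exact h.n1_diag hO (hN b') hb.symm hz

theorem Cb.n1_two {Ed : X → X → Prop} {O : B → B → Prop} (hO : ∀ x, ¬ O x x) {f : X → X → X → B}
    (h : Cb Ed O f) (hn : ∀ x, ∃ y, Sy Ed x y) (hc : Conn Ed) {b c c' : X} (hcc : Sy Ed c c')
    (hN : N1 Ed f b c) (hN' : N1 Ed f b c') : ∀ b c, N1 Ed f b c := by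
  apply h.n1_col hO hn hc (c := c)
  intro y
  refine (hc (fun y => N1 Ed f y c ∧ N1 Ed f y c') ?_ b y ⟨hN, hN'⟩).1
  rintro y y' hy ⟨h1, h2⟩
  exact ⟨h.n1_diag hO h2 hy hcc.symm, h.n1_diag hO h1 hy hcc⟩

/-- `f` depends on one coordinate only -/
def Dep (f : X → X → X → B) : Prop :=
  (∀ a b b' c c', f a b c = f a b' c') ∨ (∀ b a a' c c', f a b c = f a' b c') ∨
    (∀ c a a' b b', f a b c = f a' b' c)

/-- the second and the third coordinate do not matter -/
theorem dep1 {Ed : X → X → Prop} (hc : Conn Ed) {f : X → X → X → B}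
    (h2 : ∀ a c, N1 Ed (fun b a c => f a b c) a c) (h3 : ∀ b a, N1 Ed (fun c b a => f a b c) b a) :
    ∀ a b b' c c', f a b c = f a b' c' := by
  intro a b b' c c'
  have e1 : f a b c = f a b' c := by
    refine hc (fun y => f a b c = f a y c) ?_ b b' rfl
    intro x y hxy hx
    exact hx.trans (h2 a c x y hxy).symm
  have e2 : f a b' c = f a b' c' := by
    refine hc (fun z => f a b' c = f a b' z) ?_ c c' rfl
    intro x y hxy hx
    exact hx.trans (h3 b' a x y hxy).symm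
  exact e1.trans e2

end Pool.Agent.Q212.BP
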