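import Pool.Agent.Q212.BP.Odd

/-!
Two tuples whose orbital digraph has an odd closed walk, or is not symmetric and contains a
directed path: pp-constructions of K_3.
-/

set_option autoImplicit false

namespace Pool.Agent.Q212.BP

open Finset Pool.Agent.W994.AR

variable {B : Type}

theorem pp_proj {ι : Type} {ar : ι → ℕ} {𝔸 : Str ι ar B} {L V : Type} [Finite L]
    [Finite V] {M : Set (L → B)} (hM : PP 𝔸 M) (c : V → L) :
    PP 𝔸 {z : V → B | ∃ u ∈ M, ∀ x, z x = u (c x)} := by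
  have h1 : PP 𝔸 {y : V ⊕ L → B | y ∘ Sum.inr ∈ M} := hM.subst Sum.inr
  have h2 : PP 𝔸 {y : V ⊕ L → B | ∀ x ∈ (Set.univ : Set V),
      y ∈ {y : V ⊕ L → B | y (Sum.inl x) = y (Sum.inr (c x))}} :=
    PP.iInter Set.univ Set.finite_univ _ (fun x _ => PP.eq _ _)
  have h3 := (h1.inter h2).ex (V := V) (U := L)
  convert h3 using 1
  ext z
  constructor
  · rintro ⟨u, hu, hz⟩
    exact ⟨u, hu, fun x _ => hz x⟩
  · rintro ⟨u, hu, hz⟩
    exact ⟨u, hu, fun x => hz x (Set.mem_univ x)⟩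

theorem k3_of_cube {ι : Type} {ar : ι → ℕ} {𝔸 : Str ι ar B} {G : Subgroup (Equiv.Perm B)}
    {p q : B} (hpq : p ≠ q) {S : Set (Fin 4 → B)} (hS : PP 𝔸 S)
    (hS' : ∀ z, z ∈ S ↔ Pr G p q (z 0) (z 3) ∧
      ((z 1 = z 0 ∧ z 2 = z 3) ∨ (z 1 = z 3 ∧ z 2 = z 0)))
    {X : Type} [Finite X] (Ed : X → X → Prop) (x : X → B)
    (hx : ∀ u v, Ed u v → Pr G p q (x u) (x v))
    (hproj : ∀ f : X → X → X → B, Cb Ed (Pr G p q) f → Dep f) {u v : X} (huv : Ed u v) :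
    PPConstructsK3 𝔸 := by
  classical
  let s1 : (X × X) × (X × X) × (X × X) → Fin 4 → X × X × X := fun τ =>
    ![(τ.1.1, τ.2.1.1, τ.2.2.1), (τ.1.2, τ.2.1.1, τ.2.2.1), (τ.1.1, τ.2.1.2, τ.2.2.2),
      (τ.1.2, τ.2.1.2, τ.2.2.2)]
  let s2 : (X × X) × (X × X) × (X × X) → Fin 4 → X × X × X := fun τ =>
    ![(τ.1.1, τ.2.1.1, τ.2.2.1), (τ.1.1, τ.2.1.2, τ.2.2.1), (τ.1.2, τ.2.1.1, τ.2.2.2),
      (τ.1.2, τ.2.1.2, τ.2.2.2)]
  let s3 : (X × X) × (X × X) × (X × X) → Fin 4 → X × X × X := fun τ =>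
    ![(τ.1.1, τ.2.1.1, τ.2.2.1), (τ.1.1, τ.2.1.1, τ.2.2.2), (τ.1.2, τ.2.1.2, τ.2.2.1),
      (τ.1.2, τ.2.1.2, τ.2.2.2)]
  let I : Set ((X × X) × (X × X) × (X × X)) :=
    {τ | Ed τ.1.1 τ.1.2 ∧ Ed τ.2.1.1 τ.2.1.2 ∧ Ed τ.2.2.1 τ.2.2.2}
  let M : Set (X × X × X → B) := {f | ∀ τ ∈ I,
    f ∈ ({f | f ∘ s1 τ ∈ S} ∩ {f | f ∘ s2 τ ∈ S} ∩ {f | f ∘ s3 τ ∈ S} : Set (X × X × X → B))}
  have hM : PP 𝔸 M := PP.iInter I (Set.toFinite _) _ (fun τ _ =>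
    ((hS.subst (s1 τ)).inter (hS.subst (s2 τ))).inter (hS.subst (s3 τ)))
  have hMC : ∀ f ∈ M, Cb Ed (Pr G p q) (fun a b c => f (a, b, c)) := by
    intro f hf a a' b b' c c' ha hb hc
    obtain ⟨⟨h1, h2⟩, h3⟩ := hf ((a, a'), (b, b'), (c, c')) ⟨ha, hb, hc⟩
    have h1 := (hS' _).1 h1
    have h2 := (hS' _).1 h2
    have h3 := (hS' _).1 h3
    exact ⟨h1.1, h1.2, h2.2, h3.2⟩
  have hMm : ∀ (j : Fin 3), (fun t : X × X × X => x (![t.1, t.2.1, t.2.2] j)) ∈ M := by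
    rintro j ⟨⟨a, a'⟩, ⟨b, b'⟩, ⟨c, c'⟩⟩ ⟨ha, hb, hc⟩
    fin_cases j
    · exact ⟨⟨(hS' _).2 ⟨hx _ _ ha, Or.inr ⟨rfl, rfl⟩⟩, (hS' _).2 ⟨hx _ _ ha, Or.inl ⟨rfl, rfl⟩⟩⟩,
        (hS' _).2 ⟨hx _ _ ha, Or.inl ⟨rfl, rfl⟩⟩⟩
    · exact ⟨⟨(hS' _).2 ⟨hx _ _ hb, Or.inl ⟨rfl, rfl⟩⟩, (hS' _).2 ⟨hx _ _ hb, Or.inr ⟨rfl, rfl⟩⟩⟩,
        (hS' _).2 ⟨hx _ _ hb, Or.inl ⟨rfl, rfl⟩⟩⟩
    · exact ⟨⟨(hS' _).2 ⟨hx _ _ hc, Or.inl ⟨rfl, rfl⟩⟩, (hS' _).2 ⟨hx _ _ hc, Or.inl ⟨rfl, rfl⟩⟩⟩,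
        (hS' _).2 ⟨hx _ _ hc, Or.inr ⟨rfl, rfl⟩⟩⟩
  let c : Fin 4 → X × X × X := ![(u, u, u), (v, u, u), (u, v, u), (u, u, v)]
  refine k3_of_hot (pp_proj hM c) ?_ (p := x u) (q := x v) ?_
  · rintro z ⟨f, hf, hz⟩
    have hC := hMC f hf
    have hdep := hproj _ hC
    have h0 := (hC u v u v u v huv huv huv).1.ne hpq
    have z0 : z 0 = f (u, u, u) := hz 0
    have z1 : z 1 = f (v, u, u) := hz 1
    have z2 : z 2 = f (u, v, u) := hz 2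
    have z3 : z 3 = f (u, u, v) := hz 3
    rcases hdep with hd | hd | hd
    · have e1 : f (v, u, u) = f (v, v, v) := hd v u v u v
      have e2 : f (u, v, u) = f (u, u, u) := hd u v u u u
      have e3 : f (u, u, v) = f (u, u, u) := hd u u u v u
      refine ⟨0, ?_⟩
      intro i
      fin_cases i
      · refine ⟨fun _ => rfl, fun _ => ?_⟩
        show z 1 ≠ z 0
        rw [z1, z0, e1]
        exact h0.symm
      · refine ⟨fun h => absurd ?_ h, fun h => absurd h (by decide)⟩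
        show z 2 = z 0
        rw [z2, z0, e2]
      · refine ⟨fun h => absurd ?_ h, fun h => absurd h (by decide)⟩
        show z 3 = z 0
        rw [z3, z0, e3]
    · have e1 : f (v, u, u) = f (u, u, u) := hd u v u u u
      have e2 : f (u, v, u) = f (v, v, v) := hd v u v u v
      have e3 : f (u, u, v) = f (u, u, u) := hd u u u v u
      refine ⟨1, ?_⟩
      intro i
      fin_cases i
      · refine ⟨fun h => absurd ?_ h, fun h => absurd h (by decide)⟩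
        show z 1 = z 0
        rw [z1, z0, e1]
      · refine ⟨fun _ => rfl, fun _ => ?_⟩
        show z 2 ≠ z 0
        rw [z2, z0, e2]
        exact h0.symm
      · refine ⟨fun h => absurd ?_ h, fun h => absurd h (by decide)⟩
        show z 3 = z 0
        rw [z3, z0, e3]
    · have e1 : f (v, u, u) = f (u, u, u) := hd u v u u u
      have e2 : f (u, v, u) = f (u, u, u) := hd u u u v u
      have e3 : f (u, u, v) = f (v, v, v) := hd v u v u v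
      refine ⟨2, ?_⟩
      intro i
      fin_cases i
      · refine ⟨fun h => absurd ?_ h, fun h => absurd h (by decide)⟩
        show z 1 = z 0
        rw [z1, z0, e1]
      · refine ⟨fun h => absurd ?_ h, fun h => absurd h (by decide)⟩
        show z 2 = z 0
        rw [z2, z0, e2]
      · refine ⟨fun _ => rfl, fun _ => ?_⟩
        show z 3 ≠ z 0
        rw [z3, z0, e3]
        exact h0.symm
  · intro z hz0 j hz
    refine ⟨_, hMm j, ?_⟩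
    intro y
    induction y using Fin.cases with
    | zero =>
      rw [hz0]
      fin_cases j <;> rfl
    | succ i =>
      rw [hz]
      fin_cases j <;> fin_cases i <;> rfl

/-- the digraph of the pairs `O` has a closed walk of odd length, edges in any direction -/
def OddWalk (O : B → B → Prop) : Prop :=
  ∃ (n : ℕ) (x : ZMod (2 * n + 1) → B), ∀ i, O (x i) (x (i + 1)) ∨ O (x (i + 1)) (x i)

theorem k3_of_oddWalk {ι : Type} {ar : ι → ℕ} {𝔸 : Str ι ar B} {G : Subgroup (Equiv.Perm B)}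
    {p q : B} (hpq : p ≠ q) {S : Set (Fin 4 → B)} (hS : PP 𝔸 S)
    (hS' : ∀ z, z ∈ S ↔ Pr G p q (z 0) (z 3) ∧
      ((z 1 = z 0 ∧ z 2 = z 3) ∨ (z 1 = z 3 ∧ z 2 = z 0)))
    (ho : OddWalk (Pr G p q)) : PPConstructsK3 𝔸 := by
  classical
  obtain ⟨n, x, hx⟩ := ho
  let Ed : ZMod (2 * n + 1) → ZMod (2 * n + 1) → Prop := fun u v => Pr G p q (x u) (x v)
  have hE : ∀ i, Sy Ed i (i + 1) := hx
  have hO : ∀ y, ¬ Pr G p q y y := fun y hy => hy.ne hpq rfl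
  have : Finite (ZMod (2 * n + 1)) := inferInstance
  rcases hE 0 with h | h
  · exact k3_of_cube hpq hS hS' Ed x (fun u v huv => huv) (fun f hf => dep_odd hO hf hE) h
  · exact k3_of_cube hpq hS hS' Ed x (fun u v huv => huv) (fun f hf => dep_odd hO hf hE) h

theorem k3_of_path {ι : Type} {ar : ι → ℕ} {𝔸 : Str ι ar B} {G : Subgroup (Equiv.Perm B)}
    {p q : B} (hpq : p ≠ q) {S : Set (Fin 4 → B)} (hS : PP 𝔸 S)
    (hS' : ∀ z, z ∈ S ↔ Pr G p q (z 0) (z 3) ∧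
      ((z 1 = z 0 ∧ z 2 = z 3) ∨ (z 1 = z 3 ∧ z 2 = z 0)))
    (hsame : ∃ g ∈ G, g p = q) (hno : ¬ ∃ g ∈ G, g p = q ∧ g q = p) : PPConstructsK3 𝔸 := by
  classical
  obtain ⟨g, hg, hgp⟩ := hsame
  let Ed : Fin 3 → Fin 3 → Prop := fun i j => (i : ℕ) + 1 = j
  let x : Fin 3 → B := ![p, q, g q]
  have hO : ∀ y, ¬ Pr G p q y y := fun y hy => hy.ne hpq rfl
  have hA : ∀ y z, Pr G p q y z → ¬ Pr G p q z y := by
    rintro y z ⟨h, hh, h1, h2⟩ ⟨h', hh', h1', h2'⟩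
    apply hno
    refine ⟨h⁻¹ * h', G.mul_mem (G.inv_mem hh) hh', ?_, ?_⟩
    · rw [Equiv.Perm.mul_apply, h1', ← h2]
      simp
    · rw [Equiv.Perm.mul_apply, h2', ← h1]
      simp
  refine k3_of_cube hpq hS hS' Ed x ?_
    (fun f hf => dep_path (Ed := Ed) rfl rfl hO hA hf) (u := 0) (v := 1) rfl
  intro u v huv
  fin_cases u <;> fin_cases v <;> first
    | exact ⟨1, G.one_mem, rfl, rfl⟩
    | exact ⟨g, hg, hgp, rfl⟩
    | exact absurd huv (by decide)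

end Pool.Agent.Q212.BP
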