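import Pool.Agent.Q212.BP.Maj
import Pool.Agent.Q212.BP.CubeK3

/-!
Two tuples with entries in a two-element set: when the template does not pp-construct K_3.
-/

set_option autoImplicit false

namespace Pool.Agent.Q212.BP

open Finset Pool.Agent.W994.AR

variable {B : Type}

/-- homomorphically equivalent structures pp-construct the same structures -/
theorem k3_of_hom {ι : Type} {ar : ι → ℕ} {A B : Type} {𝔸 : Str ι ar A} {𝔹 : Str ι ar B}
    (f : A → B) (hf : ∀ i, ∀ v ∈ 𝔸 i, (fun j => f (v j)) ∈ 𝔹 i) (g : B → A)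
    (hg : ∀ i, ∀ v ∈ 𝔹 i, (fun j => g (v j)) ∈ 𝔸 i) (h : PPConstructsK3 𝔸) :
    PPConstructsK3 𝔹 := by
  obtain ⟨n, E, hn, ⟨q, Φ, hE⟩, ⟨F, hF⟩, ⟨c, hc⟩⟩ := h
  let E' : Set (Fin n ⊕ Fin n → B) :=
    {v | ∃ u : Fin q → B, ∀ φ ∈ Φ, φ.Holds 𝔹 (Sum.elim v u)}
  refine ⟨n, E', hn, ⟨q, Φ, fun v => Iff.rfl⟩, ⟨fun i l => f (F i l), ?_⟩,
    ⟨fun x => c (fun l => g (x l)), ?_⟩⟩
  · intro i j hij
    obtain ⟨u, hu⟩ := (hE _).1 (hF i j hij)
    refine ⟨fun l => f (u l), fun φ hφ => ?_⟩
    have h1 := hu φ hφ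
    have h2 : Sum.elim (Sum.elim (fun l => f (F i l)) (fun l => f (F j l))) (fun l => f (u l)) =
        fun x => f (Sum.elim (Sum.elim (F i) (F j)) u x) := by
      funext x
      rcases x with (x | x) | x <;> rfl
    rw [h2]
    cases φ with
    | eq x y => exact congrArg f h1
    | rel i x => exact hf i _ h1
  · rintro x y ⟨u, hu⟩
    apply hc
    rw [hE]
    refine ⟨fun l => g (u l), fun φ hφ => ?_⟩
    have h1 := hu φ hφ
    have h2 : Sum.elim (Sum.elim (fun l => g (x l)) (fun l => g (y l))) (fun l => g (u l)) =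
        fun z => g (Sum.elim (Sum.elim x y) u z) := by
      funext z
      rcases z with (z | z) | z <;> rfl
    rw [h2]
    cases φ with
    | eq x y => exact congrArg g h1
    | rel i x => exact hg i _ h1

/-- `f` is a minority operation -/
def IsMinority (f : (Fin 3 → B) → B) : Prop :=
  ∀ x y, f ![x, y, y] = x ∧ f ![y, x, y] = x ∧ f ![y, y, x] = x

theorem not_k3_of_min {ι : Type} {ar : ι → ℕ} {𝔸 : Str ι ar B} {f : (Fin 3 → B) → B}
    (hf : IsPol 𝔸 f) (hm : IsMinority f) : ¬ PPConstructsK3 𝔸 := by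
  rintro ⟨n, E, _, hE, ⟨F, hF⟩, ⟨g, hg⟩⟩
  have hE' := PP.of_ppdef hE
  let K : (Fin 3 → Fin 3) → Fin 3 := fun i => g (fun l => f (fun t => F (i t) l))
  have hK : ∀ i j : Fin 3 → Fin 3, (∀ t, i t ≠ j t) → K i ≠ K j := by
    intro i j hij
    have h1 := hf.preserves hE' (fun t => Sum.elim (F (i t)) (F (j t))) (fun t => hF _ _ (hij t))
    have h2 : (fun x => f fun t => (Sum.elim (F (i t)) (F (j t)) : Fin n ⊕ Fin n → B) x) =
        Sum.elim (fun l => f (fun t => F (i t) l)) (fun l => f (fun t => F (j t) l)) := by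
      funext x
      cases x <;> rfl
    rw [h2] at h1
    exact hg _ _ h1
  let h : Fin 3 → Fin 3 := fun i => g (F i)
  have hinj : Function.Injective h := by
    intro i j hij
    by_contra hne
    exact hg _ _ (hF i j hne) hij
  have hsurj : Function.Surjective h := Finite.surjective_of_injective hinj
  have hmin : ∀ a b, K ![a, b, b] = h a ∧ K ![b, a, b] = h a ∧ K ![b, b, a] = h a := by
    intro a b
    refine ⟨?_, ?_, ?_⟩
    · show g _ = g _
      congr 1
      funext l
      rw [← (hm (F a l) (F b l)).1]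
      congr 1
      funext t
      fin_cases t <;> rfl
    · show g _ = g _
      congr 1
      funext l
      rw [← (hm (F a l) (F b l)).2.1]
      congr 1
      funext t
      fin_cases t <;> rfl
    · show g _ = g _
      congr 1
      funext l
      rw [← (hm (F a l) (F b l)).2.2]
      congr 1
      funext t
      fin_cases t <;> rfl
  obtain ⟨c, hc⟩ := hsurj (K ![0, 1, 2])
  fin_cases c
  · refine hK ![0, 1, 2] ![2, 2, 0] ?_ (hc.symm.trans (hmin 0 2).2.2.symm)
    decide
  · refine hK ![0, 1, 2] ![1, 0, 0] ?_ (hc.symm.trans (hmin 1 0).1.symm)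
    decide
  · refine hK ![0, 1, 2] ![1, 2, 1] ?_ (hc.symm.trans (hmin 2 1).2.1.symm)
    decide

theorem maj_gen {k : ℕ} {f : (Fin 3 → B) → B} (hm : IsMajority f) (a : Fin 2 → Fin k → B) :
    IsPol (ι := Fin 1) (ar := fun _ => k) (fun _ => gen ⊥ a) f := by
  intro i v hv
  have hE : IsPol (ι := Empty) (ar := fun _ => 0) (fun i => i.elim : Str Empty (fun _ => 0) B) f :=
    fun i => i.elim
  exact pol_two hE hm a (Sum.inr 0) v hv

/-- the majority operation on `Bool` -/
def bmaj (x : Fin 3 → Bool) : Bool := (x 0 && x 1) || (x 0 && x 2) || (x 1 && x 2)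

theorem bmaj_isMaj : IsMajority bmaj := by
  intro x y
  cases x <;> cases y <;> exact ⟨rfl, rfl, rfl⟩

/-- the minority operation on `Bool` -/
def bmin (x : Fin 3 → Bool) : Bool := xor (xor (x 0) (x 1)) (x 2)

theorem bmin_isMin : IsMinority bmin := by
  intro x y
  cases x <;> cases y <;> exact ⟨rfl, rfl, rfl⟩

theorem perm_bool (g : Equiv.Perm Bool) : ∃ c, ∀ x, g x = xor c x := by
  refine ⟨g false, fun x => ?_⟩
  cases x
  · simp
  · have h : g true ≠ g false := fun h => absurd (g.injective h) (by decide)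
    revert h
    cases g true <;> cases g false <;> simp

/-- negation if `c` -/
def xp (c : Bool) : Equiv.Perm Bool where
  toFun x := xor c x
  invFun x := xor c x
  left_inv x := by cases c <;> cases x <;> rfl
  right_inv x := by cases c <;> cases x <;> rfl

theorem mem_top_gen {k : ℕ} (a : Fin 2 → Fin k → Bool) (v : Fin k → Bool) :
    v ∈ gen ⊤ a ↔ ∃ s c, ∀ j, v j = xor c (a s j) := by
  constructor
  · rintro ⟨s, g, _, h⟩
    obtain ⟨c, hc⟩ := perm_bool g
    exact ⟨s, c, fun j => by rw [← h j, hc]⟩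
  · rintro ⟨s, c, h⟩
    exact ⟨s, xp c, Subgroup.mem_top _, fun j => (h j).symm⟩

theorem min_gen {k : ℕ} (a : Fin 2 → Fin k → Bool) :
    IsPol (ι := Fin 1) (ar := fun _ => k) (fun _ => gen ⊤ a) bmin := by
  intro i v hv
  have h1 : ∀ t, ∃ s c, ∀ j, v t j = xor c (a s j) := fun t => (mem_top_gen a _).1 (hv t)
  choose s c h using h1
  have h2 : ∀ s : Fin 3 → Fin 2, s 0 = s 1 ∨ s 0 = s 2 ∨ s 1 = s 2 := by
    intro s
    rcases s 0 with ⟨x, hx⟩
    rcases s 1 with ⟨y, hy⟩
    rcases s 2 with ⟨z, hz⟩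
    simp only [Fin.mk.injEq]
    omega
  show (fun j => bmin (fun t => v t j)) ∈ gen ⊤ a
  rw [mem_top_gen]
  rcases h2 s with e | e | e
  · refine ⟨s 2, xor (xor (c 0) (c 1)) (c 2), fun j => ?_⟩
    simp only [bmin, h, e]
    cases c 0 <;> cases c 1 <;> cases c 2 <;> cases a (s 1) j <;> cases a (s 2) j <;> rfl
  · refine ⟨s 1, xor (xor (c 0) (c 1)) (c 2), fun j => ?_⟩
    simp only [bmin, h, e]
    cases c 0 <;> cases c 1 <;> cases c 2 <;> cases a (s 1) j <;> cases a (s 2) j <;> rfl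
  · refine ⟨s 0, xor (xor (c 0) (c 1)) (c 2), fun j => ?_⟩
    simp only [bmin, h, e]
    cases c 0 <;> cases c 1 <;> cases c 2 <;> cases a (s 0) j <;> cases a (s 2) j <;> rfl

/-- The graph with the edges `{g p, g q}` is not 2-colourable, or `p` and `q` are in the same orbit
but cannot be swapped. -/
def HardPair (G : Subgroup (Equiv.Perm B)) (p q : B) : Prop :=
  (¬ ∃ χ : B → Bool, ∀ g ∈ G, χ (g p) ≠ χ (g q)) ∨
    ((∃ g ∈ G, g p = q) ∧ ¬ ∃ g ∈ G, g p = q ∧ g q = p)

/-- In the easy case the template is homomorphically equivalent to a structure with domain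
`{0, 1}` that has a majority or a minority polymorphism. -/
theorem easy_hom {G : Subgroup (Equiv.Perm B)} {p q : B} (h : ¬ HardPair G p q) {k : ℕ}
    (a : Fin 2 → Fin k → Bool) :
    ∃ (S : Set (Fin k → Bool)) (f : (Fin 3 → Bool) → Bool), (IsMajority f ∨ IsMinority f) ∧
      IsPol (ι := Fin 1) (ar := fun _ => k) (fun _ => S) f ∧
      (∃ χ : B → Bool, ∀ v ∈ gen G (fun s j => if a s j = true then q else p),
        (fun j => χ (v j)) ∈ S) ∧
      (∃ ψ : Bool → B, ∀ v ∈ S,
        (fun j => ψ (v j)) ∈ gen G (fun s j => if a s j = true then q else p)) := by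
  classical
  unfold HardPair at h
  push Not at h
  obtain ⟨⟨χ, hχ⟩, hsw⟩ := h
  by_cases hsame : ∃ g ∈ G, g p = q
  · obtain ⟨σ, hσ, hσp, hσq⟩ := hsw hsame
    refine ⟨gen ⊤ a, bmin, Or.inr bmin_isMin, min_gen a, ⟨χ, ?_⟩,
      ⟨fun b => if b = true then q else p, ?_⟩⟩
    · rintro v ⟨s, g, hg, hv⟩
      rw [mem_top_gen]
      refine ⟨s, χ (g p), fun j => ?_⟩
      have hvj : g (if a s j = true then q else p) = v j := hv j
      rw [← hvj]
      cases hj : a s j
      · rw [if_neg (by decide)]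
        simp
      · have := hχ g hg
        rw [if_pos rfl]
        revert this
        cases χ (g p) <;> cases χ (g q) <;> simp
    · intro v hv
      obtain ⟨s, c, hv⟩ := (mem_top_gen a v).1 hv
      cases c
      · refine ⟨s, 1, G.one_mem, fun j => ?_⟩
        simp only [hv, Bool.false_xor, Equiv.Perm.coe_one, id]
      · refine ⟨s, σ, hσ, fun j => ?_⟩
        simp only [hv, Bool.true_xor]
        cases a s j
        · simpa using hσp
        · simpa using hσq
  · refine ⟨gen ⊥ a, bmaj, Or.inl bmaj_isMaj, maj_gen bmaj_isMaj a,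
      ⟨fun b => decide (¬ ∃ g ∈ G, g p = b), ?_⟩, ⟨fun b => if b = true then q else p, ?_⟩⟩
    · rintro v ⟨s, g, hg, hv⟩
      refine ⟨s, 1, Subgroup.one_mem _, fun j => ?_⟩
      simp only [Equiv.Perm.coe_one, id]
      have hvj : g (if a s j = true then q else p) = v j := hv j
      rw [← hvj]
      cases hj : a s j
      · rw [if_neg (by decide)]
        symm
        rw [decide_eq_false_iff_not, not_not]
        exact ⟨g, hg, rfl⟩
      · rw [if_pos rfl]
        symm
        rw [decide_eq_true_iff]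
        rintro ⟨g', hg', h'⟩
        apply hsame
        refine ⟨g⁻¹ * g', G.mul_mem (G.inv_mem hg) hg', ?_⟩
        rw [Equiv.Perm.mul_apply, h']
        simp
    · rintro v ⟨s, g, hg, hv⟩
      rw [Subgroup.mem_bot] at hg
      subst hg
      refine ⟨s, 1, G.one_mem, fun j => ?_⟩
      have := hv j
      simp only [Equiv.Perm.coe_one, id] at this ⊢
      rw [this]

theorem easy_two {G : Subgroup (Equiv.Perm B)} {p q : B} (h : ¬ HardPair G p q) {k : ℕ}
    (a : Fin 2 → Fin k → Bool) :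
    ¬ PPConstructsK3 (ι := Fin 1) (ar := fun _ => k)
      (fun _ => gen G (fun s j => if a s j = true then q else p)) := by
  obtain ⟨S, f, hf, hpol, ⟨χ, hχ⟩, ⟨ψ, hψ⟩⟩ := easy_hom h a
  intro hk
  have hk' := k3_of_hom (𝔹 := fun _ : Fin 1 => S) χ (fun _ => hχ) ψ (fun _ => hψ) hk
  rcases hf with hf | hf
  · exact not_k3_of_maj hpol hf hk'
  · exact not_k3_of_min hpol hf hk'

theorem hardPair_of_triangle {G : Subgroup (Equiv.Perm B)} {p q : B} (x : Fin 3 → B)
    (hx : ∀ i j, i ≠ j → Pr G p q (x i) (x j) ∨ Pr G p q (x j) (x i)) : HardPair G p q := by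
  left
  rintro ⟨χ, hχ⟩
  have h1 : ∀ i j, i ≠ j → χ (x i) ≠ χ (x j) := by
    intro i j hij
    rcases hx i j hij with ⟨g, hg, h1, h2⟩ | ⟨g, hg, h1, h2⟩
    · rw [← h1, ← h2]
      exact hχ g hg
    · rw [← h1, ← h2]
      exact (hχ g hg).symm
  have h01 := h1 0 1 (by decide)
  have h02 := h1 0 2 (by decide)
  have h12 := h1 1 2 (by decide)
  revert h01 h02 h12
  cases χ (x 0) <;> cases χ (x 1) <;> cases χ (x 2) <;> simp

theorem oddWalk_of_not_two {G : Subgroup (Equiv.Perm B)} {p q : B} (hpq : p ≠ q)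
    (h : ¬ ∃ χ : B → Bool, ∀ g ∈ G, χ (g p) ≠ χ (g q)) : OddWalk (Pr G p q) := by
  classical
  let H : SimpleGraph B := SimpleGraph.fromRel (Pr G p q)
  have hcol : ¬ H.Colorable 2 := by
    rintro ⟨c⟩
    apply h
    refine ⟨fun x => decide (c x = 0), fun g hg => ?_⟩
    have hadj : H.Adj (g p) (g q) := by
      rw [SimpleGraph.fromRel_adj]
      exact ⟨fun h => hpq (g.injective h), Or.inl ⟨g, hg, rfl, rfl⟩⟩
    have hne := c.valid hadj
    have h2 : ∀ x y : Fin 2, x ≠ y → decide (x = 0) ≠ decide (y = 0) := by decide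
    exact h2 _ _ hne
  rw [SimpleGraph.two_colorable_iff_forall_loop_even] at hcol
  push Not at hcol
  obtain ⟨u, w, hw⟩ := hcol
  rw [Nat.not_even_iff_odd] at hw
  obtain ⟨n, hn⟩ := hw
  refine ⟨n, fun i => w.getVert i.val, fun i => ?_⟩
  have hlt : i.val < 2 * n + 1 := ZMod.val_lt i
  have hadj : H.Adj (w.getVert i.val) (w.getVert (i.val + 1)) :=
    w.adj_getVert_succ (by rw [hn]; exact hlt)
  have hval : w.getVert (i + 1).val = w.getVert (i.val + 1) := by
    by_cases hi : i.val + 1 < 2 * n + 1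
    · congr 1
      rw [ZMod.val_add_of_lt]
      · congr 1
        rw [ZMod.val_one'']
        omega
      · rw [ZMod.val_one'']
        · exact hi
        · omega
    · have e1 : i.val + 1 = 2 * n + 1 := by omega
      have e2 : i + 1 = 0 := by
        have e3 : ((i.val + 1 : ℕ) : ZMod (2 * n + 1)) = 0 := by
          rw [e1]
          exact ZMod.natCast_self _
        push_cast at e3
        rwa [ZMod.natCast_zmod_val] at e3
      rw [e2, e1, ← hn, w.getVert_length]
      simp
  rw [SimpleGraph.fromRel_adj] at hadj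
  simp only [hval]
  exact hadj.2

theorem k3_of_hardPair {ι : Type} {ar : ι → ℕ} {𝔸 : Str ι ar B} {G : Subgroup (Equiv.Perm B)}
    {p q : B} (hpq : p ≠ q) {S : Set (Fin 4 → B)} (hS : PP 𝔸 S)
    (hS' : ∀ z, z ∈ S ↔ Pr G p q (z 0) (z 3) ∧
      ((z 1 = z 0 ∧ z 2 = z 3) ∨ (z 1 = z 3 ∧ z 2 = z 0)))
    (h : HardPair G p q) : PPConstructsK3 𝔸 := by
  rcases h with h | h
  · exact k3_of_oddWalk hpq hS hS' (oddWalk_of_not_two hpq h)
  · exact k3_of_path hpq hS hS' h.1 h.2

end Pool.Agent.Q212.BP
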