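import Pool.Agent.W994.AR.Final

/-!
Relations generated by few tuples and pp-constructions of K_3.
-/

set_option autoImplicit false

namespace Pool.Agent.Q212.BP

open Pool.Agent.W994.AR

variable {B : Type}

/-- The smallest relation which contains the tuples `a s` and is invariant under `G`. -/
def gen (G : Subgroup (Equiv.Perm B)) {S V : Type} (a : S → V → B) : Set (V → B) :=
  {v | ∃ s, Same G (a s) v}

theorem gen_invar (G : Subgroup (Equiv.Perm B)) {S V : Type} (a : S → V → B) :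
    Invar G (gen G a) := by
  rintro g hg v ⟨s, h⟩
  exact ⟨s, h.trans ⟨g, hg, fun _ => rfl⟩⟩

theorem pp_minor {ι : Type} {ar : ι → ℕ} {𝔸 : Str ι ar B} (i : ι) {L V : Type} [Finite L]
    [Finite V] (w : Fin (ar i) → L) (c : V → L) :
    PP 𝔸 {z : V → B | ∃ u : L → B, u ∘ w ∈ 𝔸 i ∧ ∀ x, z x = u (c x)} := by
  have h1 : PP 𝔸 {y : V ⊕ L → B | y ∘ (Sum.inr ∘ w) ∈ 𝔸 i} := PP.rel i (Sum.inr ∘ w)
  have h2 : PP 𝔸 {y : V ⊕ L → B | ∀ x ∈ (Set.univ : Set V),
      y ∈ {y : V ⊕ L → B | y (Sum.inl x) = y (Sum.inr (c x))}} :=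
    PP.iInter Set.univ Set.finite_univ _ (fun x _ => PP.eq _ _)
  have h3 := (h1.inter h2).ex (V := V) (U := L)
  convert h3 using 1
  ext z
  constructor
  · rintro ⟨u, hu, hz⟩
    exact ⟨u, hu, fun x _ => hz x⟩
  · rintro ⟨u, hu, hz⟩
    exact ⟨u, hu, fun x => hz x (Set.mem_univ x)⟩

/-- existential quantification over one variable -/
theorem pp_ex1 {ι : Type} {ar : ι → ℕ} {𝔸 : Str ι ar B} {V V' : Type} {T : Set (V' → B)}
    (hT : PP 𝔸 T) (s : V' → V ⊕ Fin 1) :
    PP 𝔸 {z : V → B | ∃ t : B, (fun x => Sum.elim z (fun _ => t) (s x)) ∈ T} := by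
  have h3 := (hT.subst s).ex (V := V) (U := Fin 1)
  convert h3 using 1
  ext z
  constructor
  · rintro ⟨t, ht⟩
    exact ⟨fun _ => t, ht⟩
  · rintro ⟨u, hu⟩
    refine ⟨u 0, ?_⟩
    have h1 : u = fun _ => u 0 := by
      funext x
      rw [Subsingleton.elim x 0]
    rw [h1] at hu
    exact hu

/-- exactly the coordinate `j + 1` differs from the coordinate `0` -/
def Hot (z : Fin 4 → B) (j : Fin 3) : Prop := ∀ i : Fin 3, z i.succ ≠ z 0 ↔ i = j

theorem Hot.eq {z : Fin 4 → B} {j j' : Fin 3} (h : Hot z j) (h' : Hot z j') : j = j' :=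
  (h' j).1 ((h j).2 rfl)

theorem k3_of_hot {ι : Type} {ar : ι → ℕ} {𝔸 : Str ι ar B} {T : Set (Fin 4 → B)} (hT : PP 𝔸 T)
    (h1 : ∀ z ∈ T, ∃ j, Hot z j) {p q : B}
    (h2 : ∀ z : Fin 4 → B, z 0 = p → ∀ j : Fin 3, (∀ i : Fin 3, z i.succ = if i = j then q else p) →
      z ∈ T) : PPConstructsK3 𝔸 := by
  classical
  let s : Fin 3 → Fin 4 → (Fin 4 ⊕ Fin 4) ⊕ Fin 1 := fun i =>
    ![Sum.inl (Sum.inl 0), Sum.inl (Sum.inl i.succ), Sum.inl (Sum.inr i.succ), Sum.inr 0]
  let E : Set (Fin 4 ⊕ Fin 4 → B) := {z | z ∘ Sum.inl ∈ T} ∩ {z | z ∘ Sum.inr ∈ T} ∩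
    {z | z (Sum.inl 0) = z (Sum.inr 0)} ∩
    {z | ∀ i ∈ (Set.univ : Set (Fin 3)),
      z ∈ {z : Fin 4 ⊕ Fin 4 → B | ∃ t : B, (fun x => Sum.elim z (fun _ => t) (s i x)) ∈ T}}
  have hE : PP 𝔸 E := by
    refine (((hT.subst Sum.inl).inter (hT.subst Sum.inr)).inter (PP.eq _ _)).inter ?_
    exact PP.iInter Set.univ Set.finite_univ _ (fun i _ => pp_ex1 hT (s i))
  let F : Fin 3 → Fin 4 → B := fun j x => if x = j.succ then q else p
  have hF0 : ∀ j, F j 0 = p := by
    intro j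
    simp only [F]
    rw [if_neg (Fin.succ_ne_zero j).symm]
  have hFs : ∀ j i : Fin 3, F j i.succ = if i = j then q else p := by
    intro j i
    simp only [F]
    by_cases h : i = j
    · rw [if_pos h, if_pos (by rw [h])]
    · rw [if_neg h, if_neg (fun h' => h (Fin.succ_injective _ h'))]
  refine ⟨4, E, by norm_num, hE.toPPDef, ⟨F, ?_⟩,
    ⟨fun x => if h : ∃ j, Hot x j then h.choose else 0, ?_⟩⟩
  · intro j j' hjj
    refine ⟨⟨⟨h2 _ (hF0 j) j (hFs j), h2 _ (hF0 j') j' (hFs j')⟩, ?_⟩, ?_⟩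
    · show F j 0 = F j' 0
      rw [hF0, hF0]
    · intro i _
      by_cases hi : i = j
      · refine ⟨p, h2 _ ?_ 0 ?_⟩
        · show F j 0 = p
          exact hF0 j
        · intro i'
          fin_cases i'
          · show F j i.succ = _
            rw [hFs, if_pos hi]
            rfl
          · show F j' i.succ = _
            rw [hFs, if_neg (fun h => hjj (hi.symm.trans h))]
            rfl
          · rfl
      · by_cases hi' : i = j'
        · refine ⟨p, h2 _ ?_ 1 ?_⟩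
          · show F j 0 = p
            exact hF0 j
          · intro i'
            fin_cases i'
            · show F j i.succ = _
              rw [hFs, if_neg hi]
              rfl
            · show F j' i.succ = _
              rw [hFs, if_pos hi']
              rfl
            · rfl
        · refine ⟨q, h2 _ ?_ 2 ?_⟩
          · show F j 0 = p
            exact hF0 j
          · intro i'
            fin_cases i'
            · show F j i.succ = _
              rw [hFs, if_neg hi]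
              rfl
            · show F j' i.succ = _
              rw [hFs, if_neg hi']
              rfl
            · rfl
  · rintro x y ⟨⟨⟨hx, hy⟩, h0⟩, hxy⟩
    obtain ⟨j, hj⟩ := h1 _ hx
    obtain ⟨j', hj'⟩ := h1 _ hy
    have hj : Hot x j := hj
    have hj' : Hot y j' := hj'
    have hex : ∃ j, Hot x j := ⟨j, hj⟩
    have hey : ∃ j, Hot y j := ⟨j', hj'⟩
    simp only [dif_pos hex, dif_pos hey]
    rw [hex.choose_spec.eq hj, hey.choose_spec.eq hj']
    rintro rfl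
    obtain ⟨t, ht⟩ := hxy j (Set.mem_univ j)
    obtain ⟨l, hl⟩ := h1 _ ht
    have e0 : x j.succ ≠ x 0 := (hj j).2 rfl
    have e1 : y j.succ ≠ y 0 := (hj' j).2 rfl
    have h0 : x 0 = y 0 := h0
    have l0 : (0 : Fin 3) = l := (hl 0).1 e0
    have l1 : (1 : Fin 3) = l := (hl 1).1 (by
      show y j.succ ≠ x 0
      rw [h0]
      exact e1)
    rw [← l0] at l1
    exact absurd l1 (by decide)

theorem k3_three {ι : Type} {ar : ι → ℕ} {𝔸 : Str ι ar B} {G : Subgroup (Equiv.Perm B)} (i : ι)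
    {L : Type} [Finite L] (w : Fin (ar i) → L) (π : Fin 3 → L → B)
    (hR : ∀ v : L → B, v ∘ w ∈ 𝔸 i ↔ ∃ j, Same G (π j) v) {p q : B} (hpq : p ≠ q) (c : Fin 4 → L)
    (h0 : ∀ j, π j (c 0) = p) (hc : ∀ j i : Fin 3, π j (c i.succ) = if i = j then q else p) :
    PPConstructsK3 𝔸 := by
  refine k3_of_hot (pp_minor i w c) ?_ (p := p) (q := q) ?_
  · rintro z ⟨u, hu, hz⟩
    obtain ⟨j, g, hg, hu⟩ := (hR u).1 hu
    refine ⟨j, fun l => ?_⟩
    rw [hz, hz, ← hu, ← hu, h0, hc]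
    by_cases hl : l = j
    · rw [if_pos hl]
      exact ⟨fun _ => hl, fun _ h => hpq (g.injective h).symm⟩
    · rw [if_neg hl]
      exact ⟨fun h => absurd rfl h, fun h => absurd h hl⟩
  · intro z hz0 j hz
    refine ⟨π j, (hR _).2 ⟨j, Same.refl G _⟩, ?_⟩
    intro x
    induction x using Fin.cases with
    | zero => rw [hz0, h0]
    | succ l => rw [hz, hc]

/-- the pair `(x, y)` is an image of `(p, q)` -/
def Pr (G : Subgroup (Equiv.Perm B)) (p q x y : B) : Prop := ∃ g ∈ G, g p = x ∧ g q = y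

theorem Pr.ne {G : Subgroup (Equiv.Perm B)} {p q x y : B} (hpq : p ≠ q) (h : Pr G p q x y) :
    x ≠ y := by
  obtain ⟨g, _, rfl, rfl⟩ := h
  exact fun h => hpq (g.injective h)

theorem pairs_minor {ι : Type} {ar : ι → ℕ} {𝔸 : Str ι ar B} {G : Subgroup (Equiv.Perm B)} (i : ι)
    {L : Type} [Finite L] (w : Fin (ar i) → L) (π : Fin 2 → L → B)
    (hR : ∀ v : L → B, v ∘ w ∈ 𝔸 i ↔ ∃ j, Same G (π j) v) {p q : B} (c : Fin 4 → L)
    (h0 : ∀ x, π 0 (c x) = (![p, p, q, q] : Fin 4 → B) x)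
    (h1 : ∀ x, π 1 (c x) = (![p, q, p, q] : Fin 4 → B) x) :
    ∃ S : Set (Fin 4 → B), PP 𝔸 S ∧ ∀ z, z ∈ S ↔ Pr G p q (z 0) (z 3) ∧
      ((z 1 = z 0 ∧ z 2 = z 3) ∨ (z 1 = z 3 ∧ z 2 = z 0)) := by
  refine ⟨_, pp_minor i w c, ?_⟩
  intro z
  constructor
  · rintro ⟨u, hu, hz⟩
    obtain ⟨j, g, hg, hu⟩ := (hR u).1 hu
    have hz' : ∀ y, z y = g (π j (c y)) := fun y => by rw [hz, hu]
    fin_cases j
    · simp only [Fin.mk_zero] at hz'
      have b0 : z 0 = g p := by rw [hz', h0]; rfl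
      have b1 : z 1 = g p := by rw [hz', h0]; rfl
      have b2 : z 2 = g q := by rw [hz', h0]; rfl
      have b3 : z 3 = g q := by rw [hz', h0]; rfl
      exact ⟨⟨g, hg, b0.symm, b3.symm⟩, Or.inl ⟨b1.trans b0.symm, b2.trans b3.symm⟩⟩
    · simp only [Fin.mk_one] at hz'
      have b0 : z 0 = g p := by rw [hz', h1]; rfl
      have b1 : z 1 = g q := by rw [hz', h1]; rfl
      have b2 : z 2 = g p := by rw [hz', h1]; rfl
      have b3 : z 3 = g q := by rw [hz', h1]; rfl
      exact ⟨⟨g, hg, b0.symm, b3.symm⟩, Or.inr ⟨b1.trans b3.symm, b2.trans b0.symm⟩⟩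
  · rintro ⟨⟨g, hg, b0, b3⟩, h | h⟩
    · refine ⟨fun y => g (π 0 y), (hR _).2 ⟨0, g, hg, fun _ => rfl⟩, ?_⟩
      intro y
      simp only [h0]
      fin_cases y
      · exact b0.symm
      · exact h.1.trans b0.symm
      · exact h.2.trans b3.symm
      · exact b3.symm
    · refine ⟨fun y => g (π 1 y), (hR _).2 ⟨1, g, hg, fun _ => rfl⟩, ?_⟩
      intro y
      simp only [h1]
      fin_cases y
      · exact b0.symm
      · exact h.1.trans b3.symm
      · exact h.2.trans b0.symm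
      · exact b3.symm

end Pool.Agent.Q212.BP
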