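import Pool.Agent.Q212.BP.Three

/-!
Majority polymorphisms and relations with two tuples.
-/

set_option autoImplicit false

namespace Pool.Agent.Q212.BP

open Finset Pool.Agent.W994.AR

variable {B : Type}

/-- `f` is a majority operation -/
def IsMajority (f : (Fin 3 → B) → B) : Prop :=
  ∀ x y, f ![x, x, y] = x ∧ f ![x, y, x] = x ∧ f ![y, x, x] = x

theorem PP.of_ppdef {ι : Type} {ar : ι → ℕ} {𝔸 : Str ι ar B} {V : Type} {S : Set (V → B)}
    (h : PPDef 𝔸 S) : PP 𝔸 S := by
  obtain ⟨q, Φ, h⟩ := h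
  exact ⟨Fin q, inferInstance, {φ | φ ∈ Φ}, Φ.finite_toSet, h⟩

theorem not_k3_of_maj {ι : Type} {ar : ι → ℕ} {𝔸 : Str ι ar B} {f : (Fin 3 → B) → B}
    (hf : IsPol 𝔸 f) (hm : IsMajority f) : ¬ PPConstructsK3 𝔸 := by
  rintro ⟨n, E, _, hE, ⟨F, hF⟩, ⟨g, hg⟩⟩
  have hE' := PP.of_ppdef hE
  let K : (Fin 3 → Fin 3) → Fin 3 := fun i => g (fun l => f (fun t => F (i t) l))
  have hK : ∀ i j : Fin 3 → Fin 3, (∀ t, i t ≠ j t) → K i ≠ K j := by
    intro i j hij
    have h1 := hf.preserves hE' (fun t => Sum.elim (F (i t)) (F (j t))) (fun t => hF _ _ (hij t))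
    have h2 : (fun x => f fun t => (Sum.elim (F (i t)) (F (j t)) : Fin n ⊕ Fin n → B) x) =
        Sum.elim (fun l => f (fun t => F (i t) l)) (fun l => f (fun t => F (j t) l)) := by
      funext x
      cases x <;> rfl
    rw [h2] at h1
    exact hg _ _ h1
  let h : Fin 3 → Fin 3 := fun i => g (F i)
  have hinj : Function.Injective h := by
    intro i j hij
    by_contra hne
    exact hg _ _ (hF i j hne) hij
  have hsurj : Function.Surjective h := Finite.surjective_of_injective hinj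
  have hmaj : ∀ a b, K ![a, a, b] = h a ∧ K ![a, b, a] = h a ∧ K ![b, a, a] = h a := by
    intro a b
    refine ⟨?_, ?_, ?_⟩
    · show g _ = g _
      congr 1
      funext l
      rw [← (hm (F a l) (F b l)).1]
      congr 1
      funext t
      fin_cases t <;> rfl
    · show g _ = g _
      congr 1
      funext l
      rw [← (hm (F a l) (F b l)).2.1]
      congr 1
      funext t
      fin_cases t <;> rfl
    · show g _ = g _
      congr 1
      funext l
      rw [← (hm (F a l) (F b l)).2.2]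
      congr 1
      funext t
      fin_cases t <;> rfl
  obtain ⟨c, hc⟩ := hsurj (K ![0, 1, 2])
  fin_cases c
  · refine hK ![0, 1, 2] ![1, 0, 0] ?_ (hc.symm.trans (hmaj 0 1).2.2.symm)
    decide
  · refine hK ![0, 1, 2] ![1, 0, 1] ?_ (hc.symm.trans (hmaj 1 0).2.1.symm)
    decide
  · refine hK ![0, 1, 2] ![2, 2, 0] ?_ (hc.symm.trans (hmaj 2 0).1.symm)
    decide

theorem pol_two {k : ℕ} {ι : Type} {arΓ : ι → ℕ} {Γ : Str ι arΓ B} {f : (Fin 3 → B) → B}
    (hf : IsPol Γ f) (hm : IsMajority f) (a : Fin 2 → Fin k → B) :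
    IsPol (expand Γ (τ := Fin 1) (k := fun _ => k) (fun _ => gen ⊥ a)) f := by
  rintro (i | i) v hv
  · exact hf i v hv
  · have h1 : ∀ t, ∃ s : Fin 2, v t = a s := by
      intro t
      obtain ⟨s, g, hg, h⟩ := hv t
      rw [Subgroup.mem_bot] at hg
      refine ⟨s, ?_⟩
      funext j
      have := h j
      rw [hg] at this
      exact this.symm
    choose s hs using h1
    have h2 : ∀ s : Fin 3 → Fin 2, s 0 = s 1 ∨ s 0 = s 2 ∨ s 1 = s 2 := by
      intro s
      rcases s 0 with ⟨x, hx⟩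
      rcases s 1 with ⟨y, hy⟩
      rcases s 2 with ⟨z, hz⟩
      simp only [Fin.mk.injEq]
      omega
    have h3 : ∀ j, (fun t => v t j) = ![v 0 j, v 1 j, v 2 j] := by
      intro j
      funext t
      fin_cases t <;> rfl
    have key : ∃ s0, ∀ j, f (fun t => v t j) = a s0 j := by
      rcases h2 s with h | h | h
      · refine ⟨s 0, fun j => ?_⟩
        rw [h3, hs 0, hs 1, h]
        exact (hm _ _).1
      · refine ⟨s 0, fun j => ?_⟩
        rw [h3, hs 0, hs 2, h]
        exact (hm _ _).2.1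
      · refine ⟨s 1, fun j => ?_⟩
        rw [h3, hs 1, hs 2, h]
        exact (hm _ _).2.2
    obtain ⟨s0, h0⟩ := key
    exact ⟨s0, 1, Subgroup.one_mem _, fun j => (h0 j).symm⟩

theorem not_k3_two {k : ℕ} {ι : Type} {arΓ : ι → ℕ} {Γ : Str ι arΓ B} {f : (Fin 3 → B) → B}
    (hf : IsPol Γ f) (hm : IsMajority f) (a : Fin 2 → Fin k → B) :
    ¬ PPConstructsK3 (expand Γ (τ := Fin 1) (k := fun _ => k) (fun _ => gen ⊥ a)) :=
  not_k3_of_maj (pol_two hf hm a) hm

end Pool.Agent.Q212.BP
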