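import Pool.Agent.Q212.BP.Cube

/-!
Odd closed walks and directed paths in orbital digraphs.
-/

set_option autoImplicit false

namespace Pool.Agent.Q212.BP

open Finset Pool.Agent.W994.AR

variable {B : Type}

section odd

variable {n : ℕ}

theorem zmod_step {P : ZMod (2 * n + 1) → Prop} (hP : ∀ x, P x → P (x + 1)) :
    ∀ x y, P x → P y := by
  intro x y hx
  have h1 : ∀ j : ℕ, P (x + j) := by
    intro j
    induction j with
    | zero => simpa using hx
    | succ j ih =>
      have := hP _ ih
      rw [add_assoc] at this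
      push_cast
      exact this
  have h2 := h1 (y - x).val
  rw [ZMod.natCast_zmod_val] at h2
  simpa using h2

theorem zmod_step2 {P : ZMod (2 * n + 1) → Prop} (hP : ∀ x, P x → P (x + 2)) :
    ∀ x y, P x → P y := by
  intro x y hx
  have h1 : ∀ j : ℕ, P (x + 2 * j) := by
    intro j
    induction j with
    | zero => simpa using hx
    | succ j ih =>
      have := hP _ ih
      rw [add_assoc] at this
      push_cast
      rw [mul_add, mul_one]
      exact this
  have h2 := h1 ((y - x) * ((n : ZMod (2 * n + 1)) + 1)).val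
  rw [ZMod.natCast_zmod_val] at h2
  have h3 : (2 : ZMod (2 * n + 1)) * ((n : ZMod (2 * n + 1)) + 1) = 1 := by
    have h4 : ((2 * n + 1 : ℕ) : ZMod (2 * n + 1)) = 0 := ZMod.natCast_self _
    push_cast at h4
    linear_combination h4
  have h5 : x + 2 * ((y - x) * ((n : ZMod (2 * n + 1)) + 1)) = y := by
    linear_combination (y - x) * h3
  rw [h5] at h2
  exact h2

variable {Ed : ZMod (2 * n + 1) → ZMod (2 * n + 1) → Prop}

theorem conn_zmod (hE : ∀ i, Sy Ed i (i + 1)) : Conn Ed := by
  intro P hP x y hx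
  exact zmod_step (fun x => hP _ _ (hE x)) x y hx

theorem all_n1 {O : B → B → Prop} (hO : ∀ x, ¬ O x x)
    {f : ZMod (2 * n + 1) → ZMod (2 * n + 1) → ZMod (2 * n + 1) → B} (h : Cb Ed O f)
    (hE : ∀ i, Sy Ed i (i + 1)) {a a' b c : ZMod (2 * n + 1)} (ha : Sy Ed a a')
    (he : f a' b c = f a b c) : ∀ b c, N1 Ed f b c := by
  have hn : ∀ x, ∃ y, Sy Ed x y := fun x => ⟨x + 1, hE x⟩
  have hc := conn_zmod hE
  have h1 := h.n1 hO hn hc ha he
  apply h.n1_col hO hn hc (c := c)
  intro y
  refine zmod_step2 (P := fun y => N1 Ed f y c) ?_ b y h1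
  intro x hx
  have h2 := h.n1_diag hO hx (hE x) (hE c)
  have h3 := h.n1_diag hO h2 (hE (x + 1)) (hE c).symm
  have e : x + 1 + 1 = x + 2 := by ring
  rwa [e] at h3

theorem two_change {X : Type} {Ed : X → X → Prop} {O : B → B → Prop} (hO : ∀ x, ¬ O x x)
    {f : X → X → X → B} (h : Cb Ed O f) {a a' b b' c c' : X} (ha : Sy Ed a a') (hb : Sy Ed b b')
    (hc : Sy Ed c c') (h1 : f a b' c ≠ f a b c) (h2 : f a b c' ≠ f a b c) :
    f a b' c = f a b c' := by
  have e1 := h.swap12.two hO hb ha hc
  have e2 := h.swap13.two hO hc hb ha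
  grind

theorem dep_odd {O : B → B → Prop} (hO : ∀ x, ¬ O x x)
    {f : ZMod (2 * n + 1) → ZMod (2 * n + 1) → ZMod (2 * n + 1) → B} (h : Cb Ed O f)
    (hE : ∀ i, Sy Ed i (i + 1)) : Dep f := by
  have hc := conn_zmod hE
  by_cases h1 : ∀ b c, N1 Ed f b c
  · by_cases h2 : ∀ b c, N1 Ed (fun b a c => f a b c) b c
    · refine Or.inr (Or.inr ?_)
      intro c a a' b b'
      have e1 : f a b c = f a' b c := by
        refine hc (fun y => f a b c = f y b c) ?_ a a' rfl
        intro x y hxy hx
        exact hx.trans (h1 b c x y hxy).symm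
      have e2 : f a' b c = f a' b' c := by
        refine hc (fun y => f a' b c = f a' y c) ?_ b b' rfl
        intro x y hxy hx
        exact hx.trans (h2 a' c x y hxy).symm
      exact e1.trans e2
    · by_cases h3 : ∀ b c, N1 Ed (fun c b a => f a b c) b c
      · refine Or.inr (Or.inl ?_)
        intro b a a' c c'
        have e1 : f a b c = f a' b c := by
          refine hc (fun y => f a b c = f y b c) ?_ a a' rfl
          intro x y hxy hx
          exact hx.trans (h1 b c x y hxy).symm
        have e2 : f a' b c = f a' b c' := by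
          refine hc (fun y => f a' b c = f a' b y) ?_ c c' rfl
          intro x y hxy hx
          exact hx.trans (h3 b a' x y hxy).symm
        exact e1.trans e2
      · exfalso
        have c2 : f 0 1 0 ≠ f 0 0 0 := fun he =>
          h2 (all_n1 hO h.swap12 hE (hE 0) (by simpa using he))
        have c3 : f 0 0 1 ≠ f 0 0 0 := fun he =>
          h3 (all_n1 hO h.swap13 hE (hE 0) (by simpa using he))
        have hE0 : Sy Ed 0 1 := by simpa using hE 0
        have c3' : f 0 1 1 ≠ f 0 1 0 := fun he =>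
          h3 (all_n1 hO h.swap13 hE hE0 he)
        have e1 := h1 1 1 _ _ hE0
        have t := h.two hO hE0 hE0 hE0
        have t2 := h.swap12.two hO hE0 hE0 hE0
        have t3 := h.two hO hE0.symm hE0 hE0
        grind
  · have n1 : ∀ {a a' b c : ZMod (2 * n + 1)}, Sy Ed a a' → f a' b c ≠ f a b c :=
      fun ha he => h1 (all_n1 hO h hE ha he)
    by_cases h2 : ∀ b c, N1 Ed (fun b a c => f a b c) b c
    · by_cases h3 : ∀ b c, N1 Ed (fun c b a => f a b c) b c
      · exact Or.inl (dep1 hc (fun a c => h2 a c) (fun b a => h3 b a))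
      · exfalso
        have hE0 : Sy Ed 0 1 := by simpa using hE 0
        have c1 : f 1 0 0 ≠ f 0 0 0 := n1 hE0
        have c3' : f 1 0 1 ≠ f 1 0 0 := fun he =>
          h3 (all_n1 hO h.swap13 hE hE0 he)
        have e1 : f 1 1 1 = f 1 0 1 := h2 1 1 _ _ hE0
        have t := h.two hO hE0 hE0 hE0
        have t2 := h.swap12.two hO hE0.symm hE0 hE0
        have t3 := h.swap12.two hO hE0 hE0 hE0
        have t4 := h.swap13.two hO hE0 hE0 hE0
        grind
    · have n2 : ∀ {a b b' c : ZMod (2 * n + 1)}, Sy Ed b b' → f a b' c ≠ f a b c :=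
        fun ha he => h2 (all_n1 hO h.swap12 hE ha he)
      by_cases h3 : ∀ b c, N1 Ed (fun c b a => f a b c) b c
      · exfalso
        have hE0 : Sy Ed 0 1 := by simpa using hE 0
        have c1 : f 1 0 0 ≠ f 0 0 0 := n1 hE0
        have c2 : f 1 1 0 ≠ f 1 0 0 := n2 hE0
        have e1 : f 1 1 1 = f 1 1 0 := h3 1 1 _ _ hE0
        have t := h.two hO hE0 hE0 hE0
        have t2 := h.swap12.two hO hE0.symm hE0 hE0
        have t3 := h.swap12.two hO hE0 hE0 hE0
        have t4 := h.swap13.two hO hE0 hE0 hE0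
        grind
      · exfalso
        have n3 : ∀ {a b c c' : ZMod (2 * n + 1)}, Sy Ed c c' → f a b c' ≠ f a b c :=
          fun ha he => h3 (all_n1 hO h.swap13 hE ha he)
        have hE0 : Sy Ed 0 1 := by simpa using hE 0
        have key : ∀ w, f 0 0 w = f 0 0 0 → f 0 0 (w + 2) = f 0 0 0 := by
          intro w hw
          have k1 : f 0 1 (w + 1) = f 0 0 (w + 1 + 1) :=
            two_change hO h hE0 hE0 (hE (w + 1)) (n2 hE0) (n3 (hE (w + 1)))
          have k2 : f 0 1 (w + 1) = f 0 0 w :=
            two_change hO h hE0 hE0 (hE w).symm (n2 hE0) (n3 (hE w).symm)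
          have e : w + 1 + 1 = w + 2 := by ring
          rw [← e, ← k1, k2, hw]
        have h4 := zmod_step2 (P := fun w => f 0 0 w = f 0 0 0) key 0 1 rfl
        exact n3 hE0 h4

end odd

section path

theorem conn_path {Ed : Fin 3 → Fin 3 → Prop} (h01 : Ed 0 1) (h12 : Ed 1 2) : Conn Ed := by
  intro P hP
  have a1 : P 0 → P 1 := hP _ _ (Or.inl h01)
  have a2 : P 1 → P 0 := hP _ _ (Or.inr h01)
  have a3 : P 1 → P 2 := hP _ _ (Or.inl h12)
  have a4 : P 2 → P 1 := hP _ _ (Or.inr h12)
  intro x y hx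
  fin_cases x <;> fin_cases y <;> simp_all

theorem nbr_path {Ed : Fin 3 → Fin 3 → Prop} (h01 : Ed 0 1) (h12 : Ed 1 2) :
    ∀ x, ∃ y, Sy Ed x y := by
  intro x
  fin_cases x
  · exact ⟨1, Or.inl h01⟩
  · exact ⟨2, Or.inl h12⟩
  · exact ⟨1, Or.inr h12⟩

/-- if the first coordinate matters, then the other ones do not -/
theorem path_change {X : Type} {Ed : X → X → Prop} {O : B → B → Prop} (hO : ∀ x, ¬ O x x)
    (hA : ∀ x y, O x y → ¬ O y x) {f : X → X → X → B} (h : Cb Ed O f) {a a' a'' b b' c c' : X}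
    (ha : Ed a a') (ha' : Ed a' a'') (hb : Ed b b') (hc : Ed c c') (h1 : f a' b c ≠ f a b c) :
    f a' b' c = f a' b c ∧ f a' b c' = f a' b c ∧ f a' b' c' = f a' b c := by
  obtain ⟨p0, p1, p2, p3⟩ := h _ _ _ _ _ _ ha hb hc
  obtain ⟨q0, q1, q2, q3⟩ := h _ _ _ _ _ _ ha' hb hc
  have hne : ∀ x y, O x y → x ≠ y := by
    rintro x y hxy rfl
    exact hO _ hxy
  have r0 := hne _ _ p0
  have r1 := hne _ _ q0
  have e1 : f a' b' c' = f a' b c := by grind
  rw [e1] at p0
  have r2 : f a'' b' c' ≠ f a b c := by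
    intro he
    rw [he] at q0
    exact hA _ _ p0 q0
  grind

theorem dep_path {Ed : Fin 3 → Fin 3 → Prop} (h01 : Ed 0 1) (h12 : Ed 1 2) {O : B → B → Prop}
    (hO : ∀ x, ¬ O x x) (hA : ∀ x y, O x y → ¬ O y x) {f : Fin 3 → Fin 3 → Fin 3 → B}
    (h : Cb Ed O f) : Dep f := by
  have hc := conn_path h01 h12
  have hn := nbr_path h01 h12
  have s01 : Sy Ed 0 1 := Or.inl h01
  by_cases c1 : f 1 0 0 = f 0 0 0
  · by_cases c2 : f 0 1 0 = f 0 0 0
    · by_cases c3 : f 0 0 1 = f 0 0 0
      · exfalso
        obtain ⟨p0, p1, p2, p3⟩ := h 0 1 0 1 0 1 h01 h01 h01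
        obtain ⟨q0, q1, q2, q3⟩ := h 1 2 0 1 0 1 h12 h01 h01
        have hne : ∀ x y, O x y → x ≠ y := by
          rintro x y hxy rfl
          exact hO _ hxy
        have r0 := hne _ _ p0
        have r1 := hne _ _ q0
        have e1 : f 1 1 0 ≠ f 1 0 0 := by grind
        have e2 := path_change hO hA h.swap12 h01 h12 h12 h01 e1
        grind
      · have k := path_change hO hA h.swap13 h01 h12 h01 h01 c3
        refine Or.inr (Or.inr ?_)
        have m1 : ∀ b c, N1 Ed f b c := by
          have u1 : f 1 0 1 = f 0 0 1 := k.2.1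
          have u2 : f 1 1 1 = f 0 1 1 := by rw [k.2.2, k.1]
          have v1 : N1 Ed f 0 1 := h.n1 hO hn hc s01 u1
          have v2 : N1 Ed f 1 1 := h.n1 hO hn hc s01 u2
          have g := h
          intro b c
          have w1 : N1 Ed (fun a c b => f a b c) 1 0 := fun x y hxy => v1 x y hxy
          have w2 : N1 Ed (fun a c b => f a b c) 1 1 := fun x y hxy => v2 x y hxy
          have hs : Cb Ed O (fun a c b => f a b c) := h.swap12.swap13.swap12
          exact fun x y hxy => hs.n1_two hO hn hc s01 w1 w2 c b x y hxy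
        have m2 : ∀ a c, N1 Ed (fun b a c => f a b c) a c := by
          have u1 : f 0 1 1 = f 0 0 1 := k.1
          have u2 : f 1 1 1 = f 1 0 1 := by rw [k.2.2, k.2.1]
          have v1 : N1 Ed (fun b a c => f a b c) 0 1 := h.swap12.n1 hO hn hc s01 u1
          have v2 : N1 Ed (fun b a c => f a b c) 1 1 := h.swap12.n1 hO hn hc s01 u2
          intro a c
          have w1 : N1 Ed (fun b c a => f a b c) 1 0 := fun x y hxy => v1 x y hxy
          have w2 : N1 Ed (fun b c a => f a b c) 1 1 := fun x y hxy => v2 x y hxy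
          have hs : Cb Ed O (fun b c a => f a b c) := h.swap13.swap12
          exact fun x y hxy => hs.n1_two hO hn hc s01 w1 w2 c a x y hxy
        intro c a a' b b'
        have e1 : f a b c = f a' b c := by
          refine hc (fun y => f a b c = f y b c) ?_ a a' rfl
          intro x y hxy hx
          exact hx.trans (m1 b c x y hxy).symm
        have e2 : f a' b c = f a' b' c := by
          refine hc (fun y => f a' b c = f a' y c) ?_ b b' rfl
          intro x y hxy hx
          exact hx.trans (m2 a' c x y hxy).symm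
        exact e1.trans e2
    · have k := path_change hO hA h.swap12 h01 h12 h01 h01 c2
      refine Or.inr (Or.inl ?_)
      have m1 : ∀ b c, N1 Ed f b c := by
        have u1 : f 1 1 0 = f 0 1 0 := k.1
        have u2 : f 1 1 1 = f 0 1 1 := by rw [k.2.2, k.2.1]
        exact h.n1_two hO hn hc s01 (h.n1 hO hn hc s01 u1) (h.n1 hO hn hc s01 u2)
      have m3 : ∀ b a, N1 Ed (fun c b a => f a b c) b a := by
        have u1 : f 0 1 1 = f 0 1 0 := k.2.1
        have u2 : f 1 1 1 = f 1 1 0 := by rw [k.2.2, k.1]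
        exact h.swap13.n1_two hO hn hc s01 (h.swap13.n1 hO hn hc s01 u1)
          (h.swap13.n1 hO hn hc s01 u2)
      intro b a a' c c'
      have e1 : f a b c = f a' b c := by
        refine hc (fun y => f a b c = f y b c) ?_ a a' rfl
        intro x y hxy hx
        exact hx.trans (m1 b c x y hxy).symm
      have e2 : f a' b c = f a' b c' := by
        refine hc (fun y => f a' b c = f a' b y) ?_ c c' rfl
        intro x y hxy hx
        exact hx.trans (m3 b a' x y hxy).symm
      exact e1.trans e2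
  · have k := path_change hO hA h h01 h12 h01 h01 c1
    refine Or.inl (dep1 hc ?_ ?_)
    · have u1 : f 1 1 0 = f 1 0 0 := k.1
      have u2 : f 1 1 1 = f 1 0 1 := by rw [k.2.2, k.2.1]
      exact h.swap12.n1_two hO hn hc s01 (h.swap12.n1 hO hn hc s01 u1)
        (h.swap12.n1 hO hn hc s01 u2)
    · have u1 : f 1 0 1 = f 1 0 0 := k.2.1
      have u2 : f 1 1 1 = f 1 1 0 := by rw [k.2.2, k.1]
      have v1 : N1 Ed (fun c b a => f a b c) 0 1 := h.swap13.n1 hO hn hc s01 u1
      have v2 : N1 Ed (fun c b a => f a b c) 1 1 := h.swap13.n1 hO hn hc s01 u2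
      intro b a
      have w1 : N1 Ed (fun c a b => f a b c) 1 0 := fun x y hxy => v1 x y hxy
      have w2 : N1 Ed (fun c a b => f a b c) 1 1 := fun x y hxy => v2 x y hxy
      have hs : Cb Ed O (fun c a b => f a b c) := h.swap12.swap13
      exact fun x y hxy => hs.n1_two hO hn hc s01 w1 w2 a b x y hxy

end path

end Pool.Agent.Q212.BP
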