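import Mathlib

/-!
Uniform probability on finite types: union bounds, independent coordinates, columns of a table.
-/

set_option autoImplicit false

namespace Pool.Agent.Q212.BP

open Finset

open Classical in
/-- The proportion of the elements of a finite type with the property `P`. -/
noncomputable def pr {Ω : Type} [Fintype Ω] (P : Ω → Prop) : ℝ :=
  ((univ.filter P).card : ℝ) / Fintype.card Ω

theorem pr_eq_natCard {Ω : Type} [Fintype Ω] (P : Ω → Prop) :
    pr P = (Nat.card {x // P x} : ℝ) / Fintype.card Ω := by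
  classical
  unfold pr
  rw [Nat.card_eq_fintype_card, Fintype.card_subtype]

theorem natCard_le {Ω : Type} [Fintype Ω] {P : Ω → Prop} {b : ℝ} (h : pr P ≤ b) :
    (Nat.card {x // P x} : ℝ) ≤ b * Fintype.card Ω := by
  rw [pr_eq_natCard] at h
  rcases Nat.eq_zero_or_pos (Fintype.card Ω) with h0 | h0
  · have : IsEmpty Ω := Fintype.card_eq_zero_iff.1 h0
    rw [h0]
    simp
  · have h0' : (0 : ℝ) < Fintype.card Ω := by exact_mod_cast h0
    rwa [div_le_iff₀ h0'] at h

theorem pr_nonneg {Ω : Type} [Fintype Ω] (P : Ω → Prop) : 0 ≤ pr P := by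
  unfold pr
  positivity

theorem pr_le_one {Ω : Type} [Fintype Ω] (P : Ω → Prop) : pr P ≤ 1 := by
  classical
  unfold pr
  rcases Nat.eq_zero_or_pos (Fintype.card Ω) with h | h
  · rw [h]
    simp
  · rw [div_le_one (by exact_mod_cast h)]
    exact_mod_cast Finset.card_le_univ _

theorem pr_mono {Ω : Type} [Fintype Ω] {P Q : Ω → Prop} (h : ∀ x, P x → Q x) : pr P ≤ pr Q := by
  classical
  unfold pr
  have h1 : (univ.filter P).card ≤ (univ.filter Q).card := by
    apply card_le_card
    intro x hx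
    rw [mem_filter] at hx ⊢
    exact ⟨hx.1, h x hx.2⟩
  have h2 : ((univ.filter P).card : ℝ) ≤ ((univ.filter Q).card : ℝ) := by exact_mod_cast h1
  exact div_le_div_of_nonneg_right h2 (Nat.cast_nonneg _)

theorem pr_or {Ω : Type} [Fintype Ω] (P Q : Ω → Prop) : pr (fun x => P x ∨ Q x) ≤ pr P + pr Q := by
  rw [pr_eq_natCard, pr_eq_natCard, pr_eq_natCard, ← add_div]
  have h1 : Nat.card {x // P x ∨ Q x} ≤ Nat.card {x // P x} + Nat.card {x // Q x} := by
    have h2 := Set.ncard_union_le {x | P x} {x | Q x}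
    exact h2
  have h2 : (Nat.card {x // P x ∨ Q x} : ℝ) ≤ (Nat.card {x // P x} : ℝ) + Nat.card {x // Q x} := by
    exact_mod_cast h1
  exact div_le_div_of_nonneg_right h2 (Nat.cast_nonneg _)

theorem pr_false {Ω : Type} [Fintype Ω] {P : Ω → Prop} (h : ∀ x, ¬ P x) : pr P = 0 := by
  classical
  unfold pr
  rw [Finset.filter_false_of_mem (fun x _ => h x)]
  simp

theorem pr_finset {Ω κ : Type} [Fintype Ω] (s : Finset κ) (P : κ → Ω → Prop) :
    pr (fun x => ∃ c ∈ s, P c x) ≤ ∑ c ∈ s, pr (P c) := by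
  classical
  induction s using Finset.induction_on with
  | empty =>
    rw [pr_false]
    · simp
    · rintro x ⟨c, hc, _⟩
      simp at hc
  | insert c s hc ih =>
    rw [sum_insert hc]
    refine le_trans (pr_mono (Q := fun x => P c x ∨ ∃ c ∈ s, P c x) ?_) ((pr_or _ _).trans ?_)
    · rintro x ⟨c', hc', h⟩
      rcases mem_insert.1 hc' with rfl | h'
      · exact Or.inl h
      · exact Or.inr ⟨c', h', h⟩
    · linarith

theorem pr_ex {Ω κ : Type} [Fintype Ω] [Fintype κ] (P : κ → Ω → Prop) {b : ℝ}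
    (h : ∀ c, pr (P c) ≤ b) : pr (fun x => ∃ c, P c x) ≤ Fintype.card κ * b := by
  classical
  refine le_trans (pr_mono (Q := fun x => ∃ c ∈ (univ : Finset κ), P c x) ?_)
    ((pr_finset univ P).trans ?_)
  · rintro x ⟨c, hc⟩
    exact ⟨c, mem_univ c, hc⟩
  · refine (sum_le_sum (fun c _ => h c)).trans ?_
    rw [sum_const, nsmul_eq_mul, card_univ]

theorem pr_equiv {Ω Ω' : Type} [Fintype Ω] [Fintype Ω'] (e : Ω ≃ Ω') (P : Ω' → Prop) :
    pr (fun x => P (e x)) = pr P := by
  rw [pr_eq_natCard, pr_eq_natCard, Fintype.card_congr e]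
  congr 2
  exact Nat.card_congr (e.subtypeEquiv (fun _ => Iff.rfl))

/-- independent coordinates: the projection to a product factor -/
theorem pr_fst {Ω Ω' : Type} [Fintype Ω] [Fintype Ω'] [Nonempty Ω'] (P : Ω → Prop) :
    pr (fun x : Ω × Ω' => P x.1) = pr P := by
  classical
  unfold pr
  have h1 : (univ.filter fun x : Ω × Ω' => P x.1) = (univ.filter P) ×ˢ (univ : Finset Ω') := by
    ext x
    simp
  rw [h1, card_product, Fintype.card_prod, card_univ]
  push_cast
  rw [mul_div_mul_right]
  exact_mod_cast Fintype.card_ne_zero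

/-- conditional bound -/
theorem pr_prod_le {Ω Ω' : Type} [Fintype Ω] [Fintype Ω'] (P : Ω → Ω' → Prop) {b : ℝ}
    (hb : 0 ≤ b) (h : ∀ x, pr (P x) ≤ b) : pr (fun x : Ω × Ω' => P x.1 x.2) ≤ b := by
  classical
  rcases isEmpty_or_nonempty Ω with hΩ | hΩ
  · unfold pr
    simp [hb]
  · have h1 : ((univ.filter fun x : Ω × Ω' => P x.1 x.2).card : ℝ) =
        ∑ x : Ω, ((univ.filter (P x)).card : ℝ) := by
      rw [card_filter]
      rw [← univ_product_univ, sum_product]
      push_cast
      refine sum_congr rfl (fun x _ => ?_)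
      rw [card_filter]
      push_cast
      rfl
    have h2 : ∀ x, ((univ.filter (P x)).card : ℝ) ≤ b * Fintype.card Ω' := by
      intro x
      have := natCard_le (h x)
      rw [Nat.card_eq_fintype_card, Fintype.card_subtype] at this
      convert this
    have h3 : ((univ.filter fun x : Ω × Ω' => P x.1 x.2).card : ℝ) ≤
        b * Fintype.card (Ω × Ω') := by
      rw [h1]
      refine (sum_le_sum (fun x _ => h2 x)).trans ?_
      rw [sum_const, nsmul_eq_mul, card_univ, Fintype.card_prod]
      push_cast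
      exact le_of_eq (by ring)
    unfold pr
    rcases Nat.eq_zero_or_pos (Fintype.card (Ω × Ω')) with h0 | h0
    · rw [h0]
      simp [hb]
    · rw [div_le_iff₀ (by exact_mod_cast h0)]
      exact h3

/-- restriction of a random function along an injection -/
theorem pr_comp {ι κ X : Type} [Fintype ι] [DecidableEq ι] [Fintype κ] [DecidableEq κ] [Fintype X]
    [Nonempty X] (τ : κ → ι) (hτ : Function.Injective τ) (P : (κ → X) → Prop) :
    pr (fun x : ι → X => P (fun j => x (τ j))) = pr P := by
  classical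
  let e1 : (ι → X) ≃ ((i : {i // i ∈ Set.range τ}) → X) × ((i : {i // ¬ i ∈ Set.range τ}) → X) :=
    Equiv.piEquivPiSubtypeProd (fun i => i ∈ Set.range τ) (fun _ => X)
  let e2 : ((i : {i // i ∈ Set.range τ}) → X) ≃ (κ → X) :=
    Equiv.arrowCongr (Equiv.ofInjective τ hτ).symm (Equiv.refl X)
  let e3 : (ι → X) ≃ (κ → X) × ((i : {i // ¬ i ∈ Set.range τ}) → X) :=
    e1.trans (Equiv.prodCongr e2 (Equiv.refl _))
  have h1 := pr_equiv e3 (fun x => P x.1)
  rw [pr_fst] at h1
  rw [← h1]
  rfl

/-- properties of all columns of a random table -/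
theorem pr_cols {m D : Type} [Fintype m] [DecidableEq m] [Fintype D] (k : ℕ)
    (Q : (m → D) → Prop) :
    pr (fun a : m → Fin k → D => ∀ i, Q (fun s => a s i)) = pr Q ^ k := by
  classical
  rw [pr_eq_natCard, pr_eq_natCard, div_pow]
  congr 1
  · rw [← Nat.cast_pow]
    congr 1
    let e : {a : m → Fin k → D // ∀ i, Q (fun s => a s i)} ≃ (Fin k → {x : m → D // Q x}) :=
      { toFun := fun a i => ⟨fun s => a.1 s i, a.2 i⟩
        invFun := fun b => ⟨fun s i => (b i).1 s, fun i => (b i).2⟩
        left_inv := fun a => rfl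
        right_inv := fun b => rfl }
    rw [Nat.card_congr e]
    simp
  · rw [Fintype.card_fun, Fintype.card_fun, Fintype.card_fun, Fintype.card_fin]
    push_cast
    rw [← pow_mul, ← pow_mul, mul_comm]

end Pool.Agent.Q212.BP
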