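import Pool.Agent.Q212.BP.Three

/-!
Changing few orbits of a template generated by random tuples: the deterministic part.
-/

set_option autoImplicit false

namespace Pool.Agent.Q212.BP

open Finset Pool.Agent.W994.AR

variable {B D : Type}

/-- Let `R` be obtained from the relation generated by the tuples `a i` by removing at most
`|T|` orbits (those of the `a i` with `i ∈ T`) and adding at most `t` orbits (those of the `b r`),
and let `R` contain no constant tuple. If `|T| + t ≤ s`, then `(B; Γ, R)` pp-constructs `K_3`. -/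
def Robust (s : ℕ) {m k : ℕ} (a : Fin m → Fin k → B) : Prop :=
  ∀ (G : Subgroup (Equiv.Perm B)) (R : Set (Fin k → B)), Invar G R → (∀ v ∈ R, NC v) →
    ∀ (T : Finset (Fin m)) (t : ℕ) (b : Fin t → Fin k → B), T.card + t ≤ s →
    (∀ i, i ∉ T → a i ∈ R) → R ⊆ gen G a ∪ gen G b →
    ∀ (ι : Type) (arΓ : ι → ℕ) (Γ : Str ι arΓ B),
      PPConstructsK3 (expand Γ (τ := Fin 1) (k := fun _ => k) (fun _ => R))

/-- the triple `j` is usable: its word is onto, and no tuple outside of the triples factors
through it -/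
def Good {m k J : ℕ} (a : Fin m → Fin k → D) (τ : Fin J × Fin 3 → Fin m) (j : Fin J) : Prop :=
  Function.Surjective (wd a (fun l => τ (j, l))) ∧
    ∀ s, (∀ x, s ≠ τ x) → NC (a s) → ¬ Fac (wd a (fun l => τ (j, l))) (a s)

theorem same_nc {G : Subgroup (Equiv.Perm B)} {V : Type} {u v : V → B} (h : Same G u v)
    (hv : NC v) : NC u := h.symm.nc hv

theorem same_fac {G : Subgroup (Equiv.Perm B)} {V L : Type} {u v : V → B} {w : V → L}
    (h : Same G u v) (hv : Fac w v) : Fac w u := by
  obtain ⟨g, _, h⟩ := h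
  intro i i' hi
  apply g.injective
  rw [h, h]
  exact hv i i' hi

open Classical in
theorem robust_of [Finite D] {e : D → B} (he : Function.Injective e) {p q : D}
    (hpq : p ≠ q) {m k J : ℕ} {a : Fin m → Fin k → D} {τ : Fin J × Fin 3 → Fin m}
    (hτ : Function.Injective τ)
    (hlink : ∀ j j', j ≠ j' → ¬ Link (wd a (fun l => τ (j, l))) (wd a (fun l => τ (j', l))))
    {s : ℕ} (hs : s < (univ.filter fun j : Fin J => Good a τ j).card) :
    Robust s (fun i x => e (a i x)) := by
  intro G R hinv hnc T t b hcard hin hR ι arΓ Γ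
  -- the killed triples
  let K1 : Finset (Fin J) := univ.filter fun j => ∃ l, τ (j, l) ∈ T
  let K2 : Finset (Fin J) := univ.filter fun j =>
    ∃ r, NC (b r) ∧ Fac (wd a (fun l => τ (j, l))) (b r)
  have hK1 : K1.card ≤ T.card := by
    have h1 : ∀ j : {j // j ∈ K1}, ∃ l, τ (j.1, l) ∈ T := fun j => (mem_filter.1 j.2).2
    choose φ hφ using h1
    have h2 : (univ : Finset {j // j ∈ K1}).card ≤ T.card := by
      apply card_le_card_of_injOn (fun j => τ (j.1, φ j)) (fun j _ => hφ j)
      intro j _ j' _ hjj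
      exact Subtype.ext (congrArg Prod.fst (hτ hjj))
    rwa [card_univ, Fintype.card_coe] at h2
  have hK2 : K2.card ≤ t := by
    have h1 : ∀ j : {j // j ∈ K2}, ∃ r, NC (b r) ∧ Fac (wd a (fun l => τ (j.1, l))) (b r) :=
      fun j => (mem_filter.1 j.2).2
    choose φ hφ1 hφ2 using h1
    have h2 : (univ : Finset {j // j ∈ K2}).card ≤ (univ : Finset (Fin t)).card := by
      apply card_le_card_of_injOn φ (fun _ _ => mem_coe.2 (mem_univ _))
      intro j _ j' _ hjj
      by_contra hne
      have h3 := hφ2 j'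
      rw [← hjj] at h3
      exact hlink j.1 j'.1 (fun h => hne (Subtype.ext h)) (link_of (hφ1 j) (hφ2 j) h3)
    rwa [card_univ, Fintype.card_coe, card_univ, Fintype.card_fin] at h2
  obtain ⟨j, hj, hjK⟩ : ∃ j ∈ univ.filter (fun j : Fin J => Good a τ j), j ∉ K1 ∪ K2 := by
    by_contra hcon
    push Not at hcon
    have h1 := card_le_card (show univ.filter (fun j : Fin J => Good a τ j) ⊆ K1 ∪ K2 from hcon)
    have h2 := card_union_le K1 K2
    omega
  rw [mem_union, not_or] at hjK
  obtain ⟨hsurj, hleft⟩ := (mem_filter.1 hj).2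
  have hnT : ∀ l, τ (j, l) ∉ T := by
    intro l hl
    exact hjK.1 (mem_filter.2 ⟨mem_univ _, l, hl⟩)
  have hnb : ∀ r, NC (b r) → ¬ Fac (wd a (fun l => τ (j, l))) (b r) := by
    intro r hr hf
    exact hjK.2 (mem_filter.2 ⟨mem_univ _, r, hr, hf⟩)
  refine k3_of_word he hpq Γ hinv (wd a (fun l => τ (j, l))) hsurj (fun l => hin _ (hnT l)) ?_
  intro u hu hf
  have hncu := hnc u hu
  rcases hR hu with ⟨i, hi⟩ | ⟨r, hr⟩
  · have h1 : Fac (wd a (fun l => τ (j, l))) (a i) := Fac.of_injective he (same_fac hi hf)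
    have h2 : NC (a i) := by
      obtain ⟨x, y, hxy⟩ := same_nc hi hncu
      exact ⟨x, y, fun h => hxy (by simp only [h])⟩
    by_cases hx : ∃ x, i = τ x
    · obtain ⟨⟨j', l⟩, rfl⟩ := hx
      by_cases hjj : j = j'
      · subst hjj
        exact ⟨l, hi⟩
      · exact absurd (link_of h2 h1 (fac_wd a (fun l => τ (j', l)) l)) (hlink j j' hjj)
    · push Not at hx
      exact absurd h1 (hleft i hx h2)
  · exact absurd (same_fac hr hf) (hnb r (same_nc hr hncu))

end Pool.Agent.Q212.BP
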