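import Pool.Agent.Q212.BP.RobPr

/-!
Changing few orbits of a template generated by random tuples: asymptotic form.
-/

set_option autoImplicit false

namespace Pool.Agent.Q212.BP

open Finset Pool.Agent.W994.AR

variable {B D : Type}

theorem exp_le_one_sub {y : ℝ} (h0 : 0 ≤ y) (h1 : y ≤ 1 / 2) : Real.exp (-(2 * y)) ≤ 1 - y := by
  have h2 : 1 + 2 * y ≤ Real.exp (2 * y) := by
    have := Real.add_one_le_exp (2 * y)
    linarith
  have h3 : 0 < Real.exp (2 * y) := Real.exp_pos _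
  rw [Real.exp_neg, inv_eq_one_div, div_le_iff₀ h3]
  have h4 : (1 - y) * (1 + 2 * y) ≤ (1 - y) * Real.exp (2 * y) :=
    mul_le_mul_of_nonneg_left h2 (by linarith)
  nlinarith

theorem rob_asym (d : ℕ) (hd : 2 ≤ d) (C : ℝ) :
    ∃ A : ℝ, ∀ (B D : Type) [Fintype D] (e : D → B), Function.Injective e → Fintype.card D = d →
      ∀ k m s₀ : ℕ, 3 ≤ m → (m : ℝ) ≤ C * (d : ℝ) ^ k → s₀ < m / 3 →
      (s₀ : ℝ) ≤ (1 + 1 / (8 * (d : ℝ) ^ 3)) ^ k →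
      pr (fun a : Fin m → Fin k → D => ¬ Robust s₀ (fun i x => e (a i x))) ≤
        A * ((1 + 1 / (4 * (d : ℝ) ^ 3)) ^ k)⁻¹ := by
  classical
  set x : ℝ := 1 / (4 * (d : ℝ) ^ 3) with hx
  set L : ℝ := (d : ℝ) ^ 3 with hL
  set Λ : ℝ := ((2 : ℝ) ^ (d ^ 3)) ^ 2 with hΛ
  set F : ℝ := (d : ℝ) ^ (d ^ 3) with hF
  set θ : ℝ := 1 - 1 / (d : ℝ) ^ 3 with hθ
  set κ : ℝ := 1 + 1 / (8 * (d : ℝ) ^ 3) with hκ
  set κ1 : ℝ := 1 + x with hκ1
  have hd2 : (2 : ℝ) ≤ d := by exact_mod_cast hd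
  have hL8 : (8 : ℝ) ≤ L := by
    have : (2 : ℝ) ^ 3 ≤ (d : ℝ) ^ 3 := pow_le_pow_left₀ (by norm_num) hd2 3
    linarith
  have hL0 : 0 < L := by linarith
  have hx0 : 0 < x := by positivity
  have hx1 : x ≤ 1 / 32 := by
    rw [hx, div_le_div_iff₀ (by positivity) (by norm_num)]
    linarith
  have hθx : θ = 1 - 4 * x := by
    rw [hθ, hx, ← hL]
    field_simp
  have hκx : κ = 1 + x / 2 := by
    rw [hκ, hx]
    field_simp
    ring
  have hθ0 : 0 ≤ θ := by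
    rw [hθx]
    linarith
  have hκ10 : 0 < κ1 := by linarith
  have hκ11 : 1 < κ1 := by linarith
  have hF0 : 0 < F := by
    rw [hF]
    positivity
  have hΛ0 : 0 < Λ := by
    rw [hΛ]
    positivity
  have hcube : κ1 ^ 3 * θ ≤ 1 := by
    rw [hθx, hκ1]
    have : (1 + x) ^ 3 * (1 - 4 * x) = 1 - x - 9 * x ^ 2 - 11 * x ^ 3 - 4 * x ^ 4 := by ring
    rw [this]
    have h1 : 0 ≤ x ^ 2 := by positivity
    have h2 : 0 ≤ x ^ 3 := by positivity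
    have h3 : 0 ≤ x ^ 4 := by positivity
    linarith
  have hmain : ∀ k : ℕ, κ1 ^ (2 * k) * θ ^ k ≤ (κ1 ^ k)⁻¹ := by
    intro k
    rw [← one_div, le_div_iff₀ (pow_pos hκ10 k)]
    have h1 : κ1 ^ (2 * k) * θ ^ k * κ1 ^ k = (κ1 ^ 3 * θ) ^ k := by
      rw [mul_pow, ← pow_mul]
      ring
    rw [h1]
    exact pow_le_one₀ (by positivity) hcube
  have hdθ : 1 / (d : ℝ) ≤ θ := by
    rw [hθ]
    have h1 : 1 / (d : ℝ) ≤ 1 / 2 := by
      apply div_le_div_of_nonneg_left (by norm_num) (by norm_num) hd2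
    have h2 : 1 / (d : ℝ) ^ 3 ≤ 1 / 8 := by
      apply div_le_div_of_nonneg_left (by norm_num) (by norm_num)
      exact hL8
    linarith
  set η : ℝ := Real.exp (-(2 * (F * C))) with hη
  have hη0 : 0 < η := Real.exp_pos _
  -- thresholds
  obtain ⟨K0, hK0⟩ : ∃ K0 : ℕ, ∀ k, K0 ≤ k → 4 / η ≤ (κ1 / κ) ^ k ∧ 2 * F ≤ (d : ℝ) ^ k := by
    have h1 : Filter.Tendsto (fun k : ℕ => (κ1 / κ) ^ k) Filter.atTop Filter.atTop := by
      apply tendsto_pow_atTop_atTop_of_one_lt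
      rw [lt_div_iff₀ (by linarith), hκx]
      linarith
    have h2 : Filter.Tendsto (fun k : ℕ => (d : ℝ) ^ k) Filter.atTop Filter.atTop := by
      apply tendsto_pow_atTop_atTop_of_one_lt
      linarith
    have h3 := (h1.eventually_ge_atTop (4 / η)).and (h2.eventually_ge_atTop (2 * F))
    obtain ⟨K0, hK0⟩ := Filter.eventually_atTop.1 h3
    exact ⟨K0, fun k hk => hK0 k hk⟩
  refine ⟨L + Λ + 2 * F + 8 / η + κ1 ^ K0, ?_⟩
  intro B D _ e he hcard k m s₀ hm hmC hs hsκ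
  obtain ⟨p, q, hpq⟩ := Fintype.exists_pair_of_one_lt_card (α := D) (by omega)
  have : Nonempty D := ⟨p⟩
  have hκk : 0 < κ1 ^ k := pow_pos hκ10 k
  have hκk1 : 1 ≤ κ1 ^ k := one_le_pow₀ hκ11.le
  have hinv0 : 0 < (κ1 ^ k)⁻¹ := inv_pos.2 hκk
  have hθk : 0 ≤ θ ^ k := pow_nonneg hθ0 k
  -- terms
  have hterm : ∀ J : ℝ, 0 ≤ J → J ≤ κ1 ^ k → ∀ M : ℝ, 0 ≤ M →
      J * (M * θ ^ k) ≤ M * (κ1 ^ k)⁻¹ ∧ J ^ 2 * (M * θ ^ k) ≤ M * (κ1 ^ k)⁻¹ := by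
    intro J hJ0 hJ M hM
    have h1 := hmain k
    have h2 : J ^ 2 ≤ κ1 ^ (2 * k) := by
      have : J ^ 2 ≤ (κ1 ^ k) ^ 2 := pow_le_pow_left₀ hJ0 hJ 2
      rwa [← pow_mul, mul_comm k 2] at this
    have h3 : J ≤ κ1 ^ (2 * k) := by
      have : κ1 ^ k ≤ κ1 ^ (2 * k) := pow_le_pow_right₀ hκ11.le (by omega)
      linarith
    have h4 : ∀ y, y ≤ κ1 ^ (2 * k) → y * (M * θ ^ k) ≤ M * (κ1 ^ k)⁻¹ := by
      intro y hy
      calc y * (M * θ ^ k) ≤ κ1 ^ (2 * k) * (M * θ ^ k) := by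
            apply mul_le_mul_of_nonneg_right hy (by positivity)
        _ = M * (κ1 ^ (2 * k) * θ ^ k) := by ring
        _ ≤ M * (κ1 ^ k)⁻¹ := mul_le_mul_of_nonneg_left h1 hM
    exact ⟨h4 _ h3, h4 _ h2⟩
  by_cases hcase : ((m / 3 : ℕ) : ℝ) ≤ κ1 ^ k
  · -- few tuples
    have h3 : 3 * (m / 3) ≤ m := Nat.mul_div_le m 3
    have hb := rob_small he hpq k h3 hs
    rw [hcard] at hb
    have hJ0 : (0 : ℝ) ≤ ((m / 3 : ℕ) : ℝ) := Nat.cast_nonneg _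
    obtain ⟨t1, _⟩ := hterm _ hJ0 hcase L hL0.le
    obtain ⟨_, t2⟩ := hterm _ hJ0 hcase Λ hΛ0.le
    obtain ⟨t3, _⟩ := hterm _ hJ0 hcase (2 * F) (by linarith)
    have hrest : (m : ℝ) - 3 * ((m / 3 : ℕ) : ℝ) ≤ 2 := by
      have : m ≤ 3 * (m / 3) + 2 := by omega
      have h4 : (m : ℝ) ≤ 3 * ((m / 3 : ℕ) : ℝ) + 2 := by exact_mod_cast this
      linarith
    have hrest0 : 0 ≤ (m : ℝ) - 3 * ((m / 3 : ℕ) : ℝ) := by
      have h4 : 3 * ((m / 3 : ℕ) : ℝ) ≤ (m : ℝ) := by exact_mod_cast h3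
      linarith
    have hdk : (1 / (d : ℝ)) ^ k ≤ θ ^ k := pow_le_pow_left₀ (by positivity) hdθ k
    have hdk0 : 0 ≤ (1 / (d : ℝ)) ^ k := by positivity
    have h5 : ((m / 3 : ℕ) : ℝ) * (((m : ℝ) - 3 * ((m / 3 : ℕ) : ℝ)) * (F * (1 / (d : ℝ)) ^ k)) ≤
        ((m / 3 : ℕ) : ℝ) * (2 * F * θ ^ k) := by
      apply mul_le_mul_of_nonneg_left _ hJ0
      calc ((m : ℝ) - 3 * ((m / 3 : ℕ) : ℝ)) * (F * (1 / (d : ℝ)) ^ k)
          ≤ 2 * (F * (1 / (d : ℝ)) ^ k) := mul_le_mul_of_nonneg_right hrest (by positivity)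
        _ ≤ 2 * (F * θ ^ k) := by
          apply mul_le_mul_of_nonneg_left _ (by norm_num)
          exact mul_le_mul_of_nonneg_left hdk hF0.le
        _ = 2 * F * θ ^ k := by ring
    have h6 : (0 : ℝ) ≤ 8 / η * (κ1 ^ k)⁻¹ := by positivity
    have h7 : (0 : ℝ) ≤ κ1 ^ K0 * (κ1 ^ k)⁻¹ := by positivity
    have h8 : (L + Λ + 2 * F + 8 / η + κ1 ^ K0) * (κ1 ^ k)⁻¹ = L * (κ1 ^ k)⁻¹ + Λ * (κ1 ^ k)⁻¹ +
      2 * F * (κ1 ^ k)⁻¹ + 8 / η * (κ1 ^ k)⁻¹ + κ1 ^ K0 * (κ1 ^ k)⁻¹ := by ring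
    rw [h8]
    linarith
  · push Not at hcase
    by_cases hk : K0 ≤ k
    · obtain ⟨g1, g2⟩ := hK0 k hk
      set J : ℕ := ⌊κ1 ^ k⌋₊ with hJ
      have hJle : (J : ℝ) ≤ κ1 ^ k := Nat.floor_le hκk.le
      have hJ1 : 1 ≤ J := by
        rw [hJ]
        apply Nat.le_floor
        exact_mod_cast hκk1
      have hJhalf : κ1 ^ k / 2 ≤ J := by
        have h1 : κ1 ^ k < J + 1 := Nat.lt_floor_add_one _
        have h2 : (1 : ℝ) ≤ J := by exact_mod_cast hJ1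
        linarith
      have h3 : 3 * J ≤ m := by
        have h4 : (J : ℝ) < ((m / 3 : ℕ) : ℝ) := lt_of_le_of_lt hJle hcase
        have h5 : J < m / 3 := by exact_mod_cast h4
        omega
      have hdk0 : (0 : ℝ) < (d : ℝ) ^ k := by positivity
      have hy : F / (d : ℝ) ^ k ≤ 1 / 2 := by
        rw [div_le_div_iff₀ hdk0 (by norm_num)]
        linarith
      have hy0 : 0 ≤ F / (d : ℝ) ^ k := by positivity
      have hηm : η ≤ (1 - F / (d : ℝ) ^ k) ^ m := by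
        have h4 := exp_le_one_sub hy0 hy
        have h5 := pow_le_pow_left₀ (Real.exp_pos _).le h4 m
        refine le_trans ?_ h5
        rw [← Real.exp_nat_mul, hη]
        apply Real.exp_le_exp.2
        have h6 : (m : ℝ) * (F / (d : ℝ) ^ k) ≤ F * C := by
          calc (m : ℝ) * (F / (d : ℝ) ^ k) ≤ (C * (d : ℝ) ^ k) * (F / (d : ℝ) ^ k) :=
                mul_le_mul_of_nonneg_right hmC hy0
            _ = F * C := by
                field_simp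
        linarith
      have hk' : Fintype.card D ^ (Fintype.card D ^ 3) ≤ Fintype.card D ^ k := by
        rw [hcard]
        have h4 : F ≤ (d : ℝ) ^ k := by linarith
        rw [hF] at h4
        exact_mod_cast h4
      have hη' : η ≤ (1 - ((Fintype.card D : ℝ) ^ (Fintype.card D ^ 3)) /
          (Fintype.card D : ℝ) ^ k) ^ m := by
        rw [hcard]
        exact hηm
      have hsJ : (s₀ : ℝ) ≤ J * η / 2 := by
        refine hsκ.trans ?_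
        have hκk0 : 0 < κ ^ k := by
          have : 0 < κ := by linarith
          positivity
        rw [div_pow, div_le_div_iff₀ hη0 hκk0] at g1
        have h4 : κ1 ^ k / 2 * η ≤ J * η := mul_le_mul_of_nonneg_right hJhalf hη0.le
        linarith
      have hb := rob_dense he hpq k h3 (by omega) hη0 hk' hη' hsJ
      rw [hcard] at hb
      have hJ0 : (0 : ℝ) ≤ (J : ℝ) := Nat.cast_nonneg _
      obtain ⟨t1, _⟩ := hterm _ hJ0 hJle L hL0.le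
      obtain ⟨_, t2⟩ := hterm _ hJ0 hJle Λ hΛ0.le
      have t3 : 4 / (J * η) ≤ 8 / η * (κ1 ^ k)⁻¹ := by
        have h4 : κ1 ^ k / 2 * η ≤ J * η := mul_le_mul_of_nonneg_right hJhalf hη0.le
        have h5 : 4 / (J * η) ≤ 4 / (κ1 ^ k / 2 * η) := by
          apply div_le_div_of_nonneg_left (by norm_num) (by positivity) h4
        refine h5.trans (le_of_eq ?_)
        field_simp
        ring
      have h6 : (0 : ℝ) ≤ 2 * F * (κ1 ^ k)⁻¹ := by positivity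
      have h7 : (0 : ℝ) ≤ κ1 ^ K0 * (κ1 ^ k)⁻¹ := by positivity
      have h8 : (L + Λ + 2 * F + 8 / η + κ1 ^ K0) * (κ1 ^ k)⁻¹ = L * (κ1 ^ k)⁻¹ + Λ * (κ1 ^ k)⁻¹ +
        2 * F * (κ1 ^ k)⁻¹ + 8 / η * (κ1 ^ k)⁻¹ + κ1 ^ K0 * (κ1 ^ k)⁻¹ := by ring
      rw [h8]
      linarith
    · have h1 := pr_le_one (fun a : Fin m → Fin k → D => ¬ Robust s₀ (fun i x => e (a i x)))
      have h2 : (1 : ℝ) ≤ κ1 ^ K0 * (κ1 ^ k)⁻¹ := by
        rw [← div_eq_mul_inv, le_div_iff₀ hκk, one_mul]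
        exact pow_le_pow_right₀ hκ11.le (by omega)
      have h3 : 0 ≤ (L + Λ + 2 * F + 8 / η) * (κ1 ^ k)⁻¹ := by positivity
      have h8 : (L + Λ + 2 * F + 8 / η + κ1 ^ K0) * (κ1 ^ k)⁻¹ =
        (L + Λ + 2 * F + 8 / η) * (κ1 ^ k)⁻¹ + κ1 ^ K0 * (κ1 ^ k)⁻¹ := by ring
      rw [h8]
      linarith

end Pool.Agent.Q212.BP
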