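import Pool.Agent.Q212.BP.Rob
import Pool.Agent.Q212.BP.Cheb

/-!
Changing few orbits of a template generated by random tuples: probabilities.
-/

set_option autoImplicit false

namespace Pool.Agent.Q212.BP

open Finset Pool.Agent.W994.AR

variable {B D : Type}

/-- the triples of the first `3 J` indices -/
def tri {m J : ℕ} (h : 3 * J ≤ m) (x : Fin J × Fin 3) : Fin m :=
  ⟨3 * (x.1 : ℕ) + (x.2 : ℕ), by
    have h1 := x.1.2
    have h2 := x.2.2
    omega⟩

theorem tri_injective {m J : ℕ} (h : 3 * J ≤ m) : Function.Injective (tri h) := by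
  rintro ⟨x, y⟩ ⟨x', y'⟩ hxy
  have h1 := congrArg Fin.val hxy
  simp only [tri] at h1
  have h2 := y.2
  have h3 := y'.2
  have h4 : (x : ℕ) = x' := by omega
  have h5 : (y : ℕ) = y' := by omega
  exact Prod.ext (Fin.ext h4) (Fin.ext h5)

theorem not_mem_tri {m J : ℕ} (h : 3 * J ≤ m) (s : Fin m) :
    (∀ x, s ≠ tri h x) ↔ 3 * J ≤ (s : ℕ) := by
  constructor
  · intro hs
    by_contra hlt
    refine hs (⟨(s : ℕ) / 3, by omega⟩, ⟨(s : ℕ) % 3, Nat.mod_lt _ (by norm_num)⟩) ?_
    apply Fin.ext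
    simp only [tri]
    omega
  · intro hs x hx
    have h1 := congrArg Fin.val hx
    simp only [tri] at h1
    have h2 := x.1.2
    have h3 := x.2.2
    omega

theorem theta_nonneg [Fintype D] : 0 ≤ 1 - 1 / (Fintype.card D : ℝ) ^ 3 := by
  rcases Nat.eq_zero_or_pos (Fintype.card D) with h | h
  · rw [h]
    norm_num
  · have h1 : (1 : ℝ) ≤ (Fintype.card D : ℝ) ^ 3 := by
      have : (1 : ℝ) ≤ (Fintype.card D : ℝ) := by exact_mod_cast h
      exact one_le_pow₀ this
    have h2 : 1 / (Fintype.card D : ℝ) ^ 3 ≤ 1 := by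
      rw [div_le_one (by linarith)]
      exact h1
    linarith

section

variable [Fintype D] [Nonempty D]

theorem pr_surj_all {m J : ℕ} (k : ℕ) (h : 3 * J ≤ m) :
    pr (fun a : Fin m → Fin k → D =>
      ∃ j : Fin J, ¬ Function.Surjective (wd a (fun l => tri h (j, l)))) ≤
      J * ((Fintype.card D : ℝ) ^ 3 * (1 - 1 / (Fintype.card D : ℝ) ^ 3) ^ k) := by
  have h1 := pr_ex (fun (j : Fin J) (a : Fin m → Fin k → D) =>
    ¬ Function.Surjective (wd a (fun l => tri h (j, l))))
    (fun j => pr_not_surj (D := D) k (fun l => tri h (j, l)) (fun l l' hl => by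
      have := tri_injective h hl
      exact congrArg Prod.snd this))
  rwa [Fintype.card_fin] at h1

theorem pr_link_all {m J : ℕ} (k : ℕ) (h : 3 * J ≤ m) :
    pr (fun a : Fin m → Fin k → D => ∃ x : Fin J × Fin J, x.1 ≠ x.2 ∧
      Link (wd a (fun l => tri h (x.1, l))) (wd a (fun l => tri h (x.2, l)))) ≤
      (J : ℝ) ^ 2 * (((2 : ℝ) ^ (Fintype.card D ^ 3)) ^ 2 *
        (1 - 1 / (Fintype.card D : ℝ) ^ 3) ^ k) := by
  classical
  have h1 := pr_ex (fun (x : Fin J × Fin J) (a : Fin m → Fin k → D) => x.1 ≠ x.2 ∧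
      Link (wd a (fun l => tri h (x.1, l))) (wd a (fun l => tri h (x.2, l))))
    (b := ((2 : ℝ) ^ (Fintype.card D ^ 3)) ^ 2 * (1 - 1 / (Fintype.card D : ℝ) ^ 3) ^ k) (by
    intro x
    by_cases hx : x.1 = x.2
    · rw [pr_false (fun a ha => ha.1 hx)]
      have := theta_nonneg (D := D)
      positivity
    · refine (pr_mono (fun a ha => ha.2)).trans
        (pr_link (D := D) k (fun l => tri h (x.1, l)) (fun l => tri h (x.2, l)) ?_)
      rintro (l | l) (l' | l') hl
      · have := tri_injective h hl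
        exact congrArg Sum.inl (congrArg Prod.snd this)
      · have := tri_injective h hl
        exact absurd (congrArg Prod.fst this) hx
      · have := tri_injective h hl
        exact absurd (congrArg Prod.fst this).symm hx
      · have := tri_injective h hl
        exact congrArg Sum.inr (congrArg Prod.snd this))
  rw [Fintype.card_prod, Fintype.card_fin] at h1
  push_cast at h1
  rwa [← pow_two] at h1

/-- few tuples outside of the triples -/
theorem rob_small {e : D → B} (he : Function.Injective e) {p q : D} (hpq : p ≠ q) {m J : ℕ}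
    (k : ℕ) (h : 3 * J ≤ m) {s₀ : ℕ} (hs : s₀ < J) :
    pr (fun a : Fin m → Fin k → D => ¬ Robust s₀ (fun i x => e (a i x))) ≤
      J * ((Fintype.card D : ℝ) ^ 3 * (1 - 1 / (Fintype.card D : ℝ) ^ 3) ^ k) +
      (J : ℝ) ^ 2 * (((2 : ℝ) ^ (Fintype.card D ^ 3)) ^ 2 *
        (1 - 1 / (Fintype.card D : ℝ) ^ 3) ^ k) +
      J * (((m : ℝ) - 3 * J) * ((Fintype.card D : ℝ) ^ (Fintype.card D ^ 3) *
        (1 / (Fintype.card D : ℝ)) ^ k)) := by
  classical
  have h3 : pr (fun a : Fin m → Fin k → D => ∃ j : Fin J,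
      ∃ s ∈ univ.filter (fun s : Fin m => 3 * J ≤ (s : ℕ)),
        Fac (wd a (fun l => tri h (j, l))) (a s)) ≤
      J * (((m : ℝ) - 3 * J) * ((Fintype.card D : ℝ) ^ (Fintype.card D ^ 3) *
        (1 / (Fintype.card D : ℝ)) ^ k)) := by
    have h4 := pr_ex (fun (j : Fin J) (a : Fin m → Fin k → D) =>
      ∃ s ∈ univ.filter (fun s : Fin m => 3 * J ≤ (s : ℕ)),
        Fac (wd a (fun l => tri h (j, l))) (a s))
      (b := ((m : ℝ) - 3 * J) * ((Fintype.card D : ℝ) ^ (Fintype.card D ^ 3) *
        (1 / (Fintype.card D : ℝ)) ^ k)) (by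
      intro j
      refine (pr_finset _ (fun (s : Fin m) (a : Fin m → Fin k → D) =>
        Fac (wd a (fun l => tri h (j, l))) (a s))).trans ?_
      refine (sum_le_sum (fun s hs => pr_fac (D := D) k (fun l => tri h (j, l)) (fun l l' hl => by
        have := tri_injective h hl
        exact congrArg Prod.snd this) s
        (fun l => (not_mem_tri h s).2 (mem_filter.1 hs).2 (j, l)))).trans (le_of_eq ?_)
      rw [sum_const, nsmul_eq_mul]
      have h6 : (univ.filter fun s : Fin m => ¬ 3 * J ≤ (s : ℕ)) = univ.image (tri h) := by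
        ext s
        simp only [mem_filter, mem_univ, true_and, mem_image]
        rw [← not_mem_tri h s]
        push Not
        exact ⟨fun ⟨x, hx⟩ => ⟨x, hx.symm⟩, fun ⟨x, hx⟩ => ⟨x, hx.symm⟩⟩
      have h7 := card_filter_add_card_filter_not (s := (univ : Finset (Fin m)))
        (fun s : Fin m => 3 * J ≤ (s : ℕ))
      rw [h6, card_image_of_injective _ (tri_injective h), card_univ, card_univ, Fintype.card_fin,
        Fintype.card_prod, Fintype.card_fin, Fintype.card_fin] at h7
      have h8 : ((univ.filter (fun s : Fin m => 3 * J ≤ (s : ℕ))).card : ℝ) = (m : ℝ) - 3 * J := by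
        have h9 : ((univ.filter (fun s : Fin m => 3 * J ≤ (s : ℕ))).card : ℝ) + (J : ℝ) * 3 =
          m := by exact_mod_cast h7
        linarith
      rw [h8])
    rwa [Fintype.card_fin] at h4
  refine le_trans (pr_mono ?_) ((pr_or _ _).trans (add_le_add ((pr_or _ _).trans
    (add_le_add (pr_surj_all (D := D) k h) (pr_link_all (D := D) k h))) h3))
  intro a ha
  by_contra hcon
  push Not at hcon
  obtain ⟨⟨c1, c2⟩, c3⟩ := hcon
  apply ha
  refine robust_of he hpq (tri_injective h) (fun j j' hjj => c2 (j, j') hjj) ?_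
  have hall : (univ.filter fun j : Fin J => Good a (tri h) j) = univ := by
    apply filter_true_of_mem
    intro j _
    refine ⟨c1 j, fun s hs _ hf => c3 j s (mem_filter.2 ⟨mem_univ _, (not_mem_tri h s).1 hs⟩) hf⟩
  have hcard : (univ.filter fun j : Fin J => Good a (tri h) j).card = J := by
    rw [hall, card_univ, Fintype.card_fin]
  exact lt_of_lt_of_le hs (le_of_eq hcard.symm)

theorem card_fac {k : ℕ} (w : Fin k → Fin 3 → D) [DecidablePred fun b : Fin k → D => NC b ∧ Fac w b] :
    (univ.filter fun b : Fin k → D => NC b ∧ Fac w b).card ≤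
      Fintype.card D ^ (Fintype.card D ^ 3) := by
  classical
  have h1 : (univ.filter fun b : Fin k → D => NC b ∧ Fac w b) ⊆
      univ.image (fun (v : (Fin 3 → D) → D) (i : Fin k) => v (w i)) := by
    intro b hb
    obtain ⟨v, hv⟩ := Fac.exists_map (mem_filter.1 hb).2.2
    exact mem_image.2 ⟨v, mem_univ _, (funext hv).symm⟩
  refine (card_le_card h1).trans (card_image_le.trans (le_of_eq ?_))
  rw [card_univ, Fintype.card_fun, Fintype.card_fun, Fintype.card_fin]

/-- many tuples outside of the triples -/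
theorem rob_dense {e : D → B} (he : Function.Injective e) {p q : D} (hpq : p ≠ q) {m J : ℕ}
    (k : ℕ) (h : 3 * J ≤ m) (hJ : 0 < J) {η : ℝ} (hη0 : 0 < η)
    (hk : Fintype.card D ^ (Fintype.card D ^ 3) ≤ Fintype.card D ^ k)
    (hη : η ≤ (1 - ((Fintype.card D : ℝ) ^ (Fintype.card D ^ 3)) / (Fintype.card D : ℝ) ^ k) ^ m)
    {s₀ : ℕ} (hs : (s₀ : ℝ) ≤ J * η / 2) :
    pr (fun a : Fin m → Fin k → D => ¬ Robust s₀ (fun i x => e (a i x))) ≤
      J * ((Fintype.card D : ℝ) ^ 3 * (1 - 1 / (Fintype.card D : ℝ) ^ 3) ^ k) +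
      (J : ℝ) ^ 2 * (((2 : ℝ) ^ (Fintype.card D ^ 3)) ^ 2 *
        (1 - 1 / (Fintype.card D : ℝ) ^ 3) ^ k) + 4 / (J * η) := by
  classical
  let τ := tri h
  have hτ : Function.Injective τ := tri_injective h
  let X := Fin k → D
  let e1 : (Fin m → X) ≃ ((i : {i // i ∈ Set.range τ}) → X) × ((i : {i // ¬ i ∈ Set.range τ}) → X) :=
    Equiv.piEquivPiSubtypeProd (fun i => i ∈ Set.range τ) (fun _ => X)
  let e2 : ((i : {i // i ∈ Set.range τ}) → X) ≃ (Fin J × Fin 3 → X) :=
    Equiv.arrowCongr (Equiv.ofInjective τ hτ).symm (Equiv.refl X)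
  let e3 : (Fin m → X) ≃ (Fin J × Fin 3 → X) × ((i : {i // ¬ i ∈ Set.range τ}) → X) :=
    e1.trans (Equiv.prodCongr e2 (Equiv.refl _))
  let w : (Fin J × Fin 3 → X) → Fin J → Fin k → Fin 3 → D := fun x j i l => x (j, l) i
  let P : (Fin J × Fin 3 → X) → ((i : {i // ¬ i ∈ Set.range τ}) → X) → Prop := fun x y =>
    (∀ j j', j ≠ j' → ¬ Link (w x j) (w x j')) ∧
      ((univ.filter fun j => ∀ s, y s ∉ univ.filter (fun b : X => NC b ∧ Fac (w x j) b)).card : ℝ) ≤
        J * η / 2
  have hcardX : (Fintype.card X : ℝ) = (Fintype.card D : ℝ) ^ k := by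
    rw [Fintype.card_fun, Fintype.card_fin]
    push_cast
    rfl
  have h3 : pr (fun a : Fin m → X => P (e3 a).1 (e3 a).2) ≤ 4 / (J * η) := by
    rw [pr_equiv e3 (fun z => P z.1 z.2)]
    apply pr_prod_le P (by positivity)
    intro x
    by_cases hx : ∀ j j', j ≠ j' → ¬ Link (w x j) (w x j')
    · refine (pr_mono (fun y hy => hy.2)).trans ?_
      refine cheb (fun j => univ.filter (fun b : X => NC b ∧ Fac (w x j) b)) ?_
        (f := Fintype.card D ^ (Fintype.card D ^ 3)) (fun j => card_fac (w x j)) ?_ hη0 ?_ hJ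
      · intro j j' hjj
        rw [disjoint_left]
        intro b hb hb'
        exact hx j j' hjj (link_of (mem_filter.1 hb).2.1 (mem_filter.1 hb).2.2
          (mem_filter.1 hb').2.2)
      · rw [Fintype.card_fun, Fintype.card_fin]
        exact hk
      · refine hη.trans ?_
        rw [hcardX]
        push_cast
        have hcle : Fintype.card {i // ¬ i ∈ Set.range τ} ≤ m := by
          refine (Fintype.card_subtype_le _).trans (le_of_eq (Fintype.card_fin m))
        have hd0 : (0 : ℝ) < (Fintype.card D : ℝ) ^ k := by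
          have : (0 : ℝ) < (Fintype.card D : ℝ) := by exact_mod_cast Fintype.card_pos
          positivity
        apply pow_le_pow_of_le_one _ _ hcle
        · have : ((Fintype.card D : ℝ) ^ (Fintype.card D ^ 3)) / (Fintype.card D : ℝ) ^ k ≤ 1 := by
            rw [div_le_one hd0]
            exact_mod_cast hk
          linarith
        · have : 0 ≤ ((Fintype.card D : ℝ) ^ (Fintype.card D ^ 3)) / (Fintype.card D : ℝ) ^ k := by
            positivity
          linarith
    · rw [pr_false (fun y hy => hx hy.1)]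
      positivity
  refine le_trans (pr_mono ?_) ((pr_or _ _).trans (add_le_add ((pr_or _ _).trans
    (add_le_add (pr_surj_all (D := D) k h) (pr_link_all (D := D) k h))) h3))
  intro a ha
  by_contra hcon
  push Not at hcon
  obtain ⟨⟨c1, c2⟩, c3⟩ := hcon
  apply ha
  refine robust_of he hpq hτ (fun j j' hjj => c2 (j, j') hjj) ?_
  have c4 : ¬ ((univ.filter fun j => ∀ s : {i // ¬ i ∈ Set.range τ},
      a s.1 ∉ univ.filter (fun b : X => NC b ∧
        Fac (wd a (fun l => τ (j, l))) b)).card : ℝ) ≤ J * η / 2 := by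
    intro hle
    exact c3 ⟨fun j j' hjj => c2 (j, j') hjj, hle⟩
  have hsub : (univ.filter fun j => ∀ s : {i // ¬ i ∈ Set.range τ},
      a s.1 ∉ univ.filter (fun b : X => NC b ∧ Fac (wd a (fun l => τ (j, l))) b)) ⊆
      univ.filter fun j : Fin J => Good a τ j := by
    intro j hj
    rw [mem_filter] at hj ⊢
    refine ⟨mem_univ _, c1 j, fun s hs hnc hf => ?_⟩
    have h5 : ¬ s ∈ Set.range τ := by
      rintro ⟨x, hx⟩
      exact hs x hx.symm
    exact hj.2 ⟨s, h5⟩ (mem_filter.2 ⟨mem_univ _, hnc, hf⟩)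
  have h6 := card_le_card hsub
  rw [not_le] at c4
  have h7 : (s₀ : ℝ) < ((univ.filter fun j : Fin J => Good a τ j).card : ℝ) := by
    refine lt_of_le_of_lt hs (lt_of_lt_of_le c4 ?_)
    exact_mod_cast h6
  exact_mod_cast h7

end

end Pool.Agent.Q212.BP
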