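import Pool.Agent.Q212.BP.Words

/-!
Templates with a relation generated by two or three random tuples.
-/

set_option autoImplicit false

namespace Pool.Agent.Q212.BP

open Finset Pool.Agent.W994.AR

variable {B D : Type}

theorem k3_of_word [Finite D] {e : D → B} (he : Function.Injective e) {p q : D} (hpq : p ≠ q)
    {k : ℕ} {ι : Type} {arΓ : ι → ℕ} (Γ : Str ι arΓ B) {G : Subgroup (Equiv.Perm B)}
    {R : Set (Fin k → B)} (hinv : Invar G R) (w : Fin k → Fin 3 → D)
    (hw : Function.Surjective w) (hin : ∀ j, (fun i => e (w i j)) ∈ R)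
    (hout : ∀ u ∈ R, Fac w u → ∃ j, Same G (fun i => e (w i j)) u) :
    PPConstructsK3 (expand Γ (τ := Fin 1) (k := fun _ => k) (fun _ => R)) := by
  classical
  refine k3_three (G := G) (ar := Sum.elim arΓ (fun _ : Fin 1 => k)) (Sum.inr 0)
    (L := Fin 3 → D) w (fun j x => e (x j)) ?_ (he.ne hpq)
    (Fin.cases (fun _ => p) (fun i j => if i = j then q else p)) ?_ ?_
  · intro v
    constructor
    · intro hv
      obtain ⟨j, g, hg, h⟩ := hout _ hv (fun i i' hi => congrArg v hi)
      refine ⟨j, g, hg, fun x => ?_⟩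
      obtain ⟨i, rfl⟩ := hw x
      exact h i
    · rintro ⟨j, g, hg, h⟩
      have h1 := hinv g hg _ (hin j)
      have h2 : (fun i => g (e (w i j))) = v ∘ w := by
        funext i
        exact h (w i)
      rw [h2] at h1
      exact h1
  · intro j
    rfl
  · intro j i
    show e (if i = j then q else p) = _
    by_cases h : i = j
    · rw [if_pos h, if_pos h]
    · rw [if_neg h, if_neg h]

theorem gen_out {e : D → B} (he : Function.Injective e) (G : Subgroup (Equiv.Perm B)) {S T V : Type}
    {a : S → V → D} {τ : T → S} (hfar : ∀ s, (∀ j, s ≠ τ j) → ¬ Fac (wd a τ) (a s)) :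
    ∀ u ∈ gen G (fun s i => e (a s i)), Fac (wd a τ) u →
      ∃ j, Same G (fun i => e (wd a τ i j)) u := by
  rintro u ⟨s, g, hg, hu⟩ hf
  by_cases hs : ∃ j, s = τ j
  · obtain ⟨j, rfl⟩ := hs
    exact ⟨j, g, hg, hu⟩
  · exfalso
    push Not at hs
    apply hfar s hs
    apply Fac.of_injective he
    intro i i' hi
    apply g.injective
    rw [hu i, hu i']
    exact hf i i' hi

/-- `(B; Γ, R)` pp-constructs `K_3` for every `Γ` and the relation `R` generated by the tuples
`a s` and any permutation group of `B` -/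
def Hard {m k : ℕ} (a : Fin m → Fin k → B) : Prop :=
  ∀ (G : Subgroup (Equiv.Perm B)) (ι : Type) (arΓ : ι → ℕ) (Γ : Str ι arΓ B),
    PPConstructsK3 (expand Γ (τ := Fin 1) (k := fun _ => k) (fun _ => gen G a))

theorem hard_of {D : Type} [Finite D] {e : D → B} (he : Function.Injective e) {p q : D}
    (hpq : p ≠ q) {m k : ℕ} {a : Fin m → Fin k → D} {τ : Fin 3 → Fin m}
    (hw : Function.Surjective (wd a τ)) (hfar : ∀ s, (∀ j, s ≠ τ j) → ¬ Fac (wd a τ) (a s)) :
    Hard (fun s i => e (a s i)) := by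
  intro G ι arΓ Γ
  exact k3_of_word he hpq Γ (gen_invar G _) (wd a τ) hw
    (fun j => ⟨τ j, Same.refl G _⟩) (gen_out he G hfar)

theorem castLE_ne {m r : ℕ} (h : r ≤ m) {s : Fin m} (hs : r ≤ (s : ℕ)) (j : Fin r) :
    s ≠ Fin.castLE h j := by
  intro hc
  have := congrArg Fin.val hc
  simp only [Fin.val_castLE] at this
  have := j.2
  omega

theorem hard_bound [Fintype D] {e : D → B} (he : Function.Injective e)
    (hD : 2 ≤ Fintype.card D) {m : ℕ} (hm : 3 ≤ m) (k : ℕ) :
    pr (fun a : Fin m → Fin k → D => ¬ Hard (fun s i => e (a s i))) ≤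
      (Fintype.card D : ℝ) ^ 3 * (1 - 1 / (Fintype.card D : ℝ) ^ 3) ^ k +
      ((m : ℝ) - 3) * (Fintype.card D : ℝ) ^ (Fintype.card D ^ 3) / (Fintype.card D : ℝ) ^ k := by
  classical
  obtain ⟨p, q, hpq⟩ := Fintype.exists_pair_of_one_lt_card (α := D) (by omega)
  have : Nonempty D := ⟨p⟩
  let τ : Fin 3 → Fin m := Fin.castLE hm
  have hτ : Function.Injective τ := Fin.castLE_injective hm
  have h1 := pr_not_surj (D := D) k τ hτ
  have h2 := pr_finset (univ.filter fun s : Fin m => 3 ≤ (s : ℕ))
    (fun (s : Fin m) (a : Fin m → Fin k → D) => Fac (wd a τ) (a s))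
  have h3 : ∑ s ∈ univ.filter (fun s : Fin m => 3 ≤ (s : ℕ)),
      pr (fun a : Fin m → Fin k → D => Fac (wd a τ) (a s)) ≤
      ((m : ℝ) - 3) * (Fintype.card D : ℝ) ^ (Fintype.card D ^ 3) / (Fintype.card D : ℝ) ^ k := by
    refine (sum_le_sum (fun s hs => pr_fac (D := D) k τ hτ s
      (fun j => castLE_ne hm (mem_filter.1 hs).2 j))).trans (le_of_eq ?_)
    rw [sum_const, nsmul_eq_mul]
    have h4 : (univ.filter fun s : Fin m => 3 ≤ (s : ℕ)).card = m - 3 := by
      have h6 : (univ.filter fun s : Fin m => ¬ 3 ≤ (s : ℕ)) = univ.image τ := by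
        ext s
        simp only [mem_filter, mem_univ, true_and, mem_image, τ]
        constructor
        · intro h
          exact ⟨⟨s, by omega⟩, Fin.ext rfl⟩
        · rintro ⟨j, rfl⟩
          have := j.2
          simp only [Fin.val_castLE]
          omega
      have h7 := card_filter_add_card_filter_not (s := (univ : Finset (Fin m)))
        (fun s : Fin m => 3 ≤ (s : ℕ))
      rw [h6, card_image_of_injective _ hτ, card_univ, card_univ, Fintype.card_fin,
        Fintype.card_fin] at h7
      omega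
    rw [h4, Nat.cast_sub hm, one_div, inv_pow]
    push_cast
    rw [div_eq_mul_inv]
    ring
  refine le_trans (pr_mono ?_) ((pr_or _ _).trans (add_le_add h1 (h2.trans h3)))
  intro a ha
  by_contra hcon
  push Not at hcon
  apply ha
  refine hard_of he hpq (τ := τ) hcon.1 ?_
  intro s hs
  apply hcon.2 s
  rw [mem_filter]
  refine ⟨mem_univ s, ?_⟩
  by_contra hlt
  exact hs ⟨s, by omega⟩ (Fin.ext rfl)

end Pool.Agent.Q212.BP
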