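import Pool.Agent.Q212.BP.Easy

/-!
Templates with a relation generated by two random tuples.
-/

set_option autoImplicit false

namespace Pool.Agent.Q212.BP

open Finset Pool.Agent.W994.AR

variable {B D : Type}

theorem k3_of_word_two [Finite D] {e : D → B} (he : Function.Injective e) {p q : D} (hpq : p ≠ q)
    {k : ℕ} {ι : Type} {arΓ : ι → ℕ} (Γ : Str ι arΓ B) {G : Subgroup (Equiv.Perm B)}
    {R : Set (Fin k → B)} (hinv : Invar G R) (w : Fin k → Fin 2 → D)
    (hw : Function.Surjective w) (hin : ∀ j, (fun i => e (w i j)) ∈ R)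
    (hout : ∀ u ∈ R, Fac w u → ∃ j, Same G (fun i => e (w i j)) u)
    (hG : HardPair G (e p) (e q)) :
    PPConstructsK3 (expand Γ (τ := Fin 1) (k := fun _ => k) (fun _ => R)) := by
  classical
  obtain ⟨S, hS, hS'⟩ := pairs_minor (G := G) (ar := Sum.elim arΓ (fun _ : Fin 1 => k))
    (𝔸 := expand Γ (τ := Fin 1) (k := fun _ => k) (fun _ => R)) (Sum.inr 0)
    (L := Fin 2 → D) w (fun j x => e (x j)) (by
      intro v
      constructor
      · intro hv
        obtain ⟨j, g, hg, h⟩ := hout _ hv (fun i i' hi => congrArg v hi)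
        refine ⟨j, g, hg, fun x => ?_⟩
        obtain ⟨i, rfl⟩ := hw x
        exact h i
      · rintro ⟨j, g, hg, h⟩
        have h1 := hinv g hg _ (hin j)
        have h2 : (fun i => g (e (w i j))) = v ∘ w := by
          funext i
          exact h (w i)
        rw [h2] at h1
        exact h1) (p := e p) (q := e q)
    (![![p, p], ![p, q], ![q, p], ![q, q]]) (by
      intro y
      fin_cases y <;> rfl) (by
      intro y
      fin_cases y <;> rfl)
  exact k3_of_hardPair (he.ne hpq) hS hS' hG

theorem two_bound [Fintype D] {e : D → B} (he : Function.Injective e)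
    (hD : 2 ≤ Fintype.card D) (k : ℕ) :
    pr (fun a : Fin 2 → Fin k → D => ¬ ∀ (G : Subgroup (Equiv.Perm B)) (p q : D),
      p ≠ q → HardPair G (e p) (e q) → ∀ (ι : Type) (arΓ : ι → ℕ) (Γ : Str ι arΓ B),
      PPConstructsK3 (expand Γ (τ := Fin 1) (k := fun _ => k)
        (fun _ => gen G (fun s i => e (a s i))))) ≤
      (Fintype.card D : ℝ) ^ 2 * (1 - 1 / (Fintype.card D : ℝ) ^ 2) ^ k := by
  classical
  have : Nonempty D := Fintype.card_pos_iff.1 (by omega)
  have h1 := pr_not_surj (D := D) k (id : Fin 2 → Fin 2) Function.injective_id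
  refine le_trans (pr_mono ?_) h1
  intro a ha hw
  apply ha
  intro G p q hpq hG ι arΓ Γ
  exact k3_of_word_two he hpq Γ (gen_invar G _) (wd a id) hw
    (fun j => ⟨j, Same.refl G _⟩) (gen_out he G (fun s hs => absurd rfl (hs s))) hG

end Pool.Agent.Q212.BP
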