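import Pool.Agent.Q212.BP.K3
import Pool.Agent.Q212.BP.Pr

/-!
Words of random tuples: which tuples factor through them, and pp-constructions of K_3.
-/

set_option autoImplicit false

namespace Pool.Agent.Q212.BP

open Finset Pool.Agent.W994.AR

/-- `b` factors through `w` -/
def Fac {V L B : Type} (w : V → L) (b : V → B) : Prop := ∀ i i', w i = w i' → b i = b i'

/-- the word of the tuples `a (τ j)` -/
def wd {S T V D : Type} (a : S → V → D) (τ : T → S) : V → T → D := fun i j => a (τ j) i

/-- some nonconstant map factors through both words -/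
def Link {V L L' : Type} (w : V → L) (w' : V → L') : Prop :=
  ∃ b : V → Bool, NC b ∧ Fac w b ∧ Fac w' b

theorem link_of {V L L' B : Type} {w : V → L} {w' : V → L'} {b : V → B} (hb : NC b)
    (h : Fac w b) (h' : Fac w' b) : Link w w' := by
  classical
  obtain ⟨i, j, hij⟩ := hb
  refine ⟨fun x => decide (b x = b i), ⟨i, j, ?_⟩, ?_, ?_⟩
  · simp only [decide_true, ne_eq]
    intro hc
    exact hij (of_decide_eq_true hc.symm).symm
  · intro x x' hx
    simp only [h x x' hx]
  · intro x x' hx
    simp only [h' x x' hx]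

theorem Fac.map {V L B C : Type} {w : V → L} {b : V → B} (h : Fac w b) (f : B → C) :
    Fac w (fun i => f (b i)) := fun i i' hi => congrArg f (h i i' hi)

theorem Fac.of_injective {V L B C : Type} {w : V → L} {b : V → B} {f : B → C}
    (hf : Function.Injective f) (h : Fac w (fun i => f (b i))) : Fac w b :=
  fun i i' hi => hf (h i i' hi)

theorem fac_wd {S T V D : Type} (a : S → V → D) (τ : T → S) (j : T) : Fac (wd a τ) (a (τ j)) :=
  fun _ _ hi => congrFun hi j

theorem Fac.exists_map {V L X : Type} [Nonempty X] {w : V → L} {b : V → X} (h : Fac w b) :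
    ∃ v : L → X, ∀ i, b i = v (w i) := by
  classical
  obtain ⟨x0⟩ := ‹Nonempty X›
  refine ⟨fun x => if hx : ∃ i, w i = x then b hx.choose else x0, fun i => ?_⟩
  have hx : ∃ i', w i' = w i := ⟨i, rfl⟩
  simp only [dif_pos hx]
  exact h _ _ hx.choose_spec.symm

section prob

variable {D : Type} [Fintype D] [Nonempty D]

theorem pr_ne {X : Type} [Fintype X] [Nonempty X] (c : X) :
    pr (fun x : X => x ≠ c) = 1 - 1 / Fintype.card X := by
  classical
  unfold pr
  have h0 : (Fintype.card X : ℝ) ≠ 0 := by exact_mod_cast Fintype.card_ne_zero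
  have h1 : (univ.filter fun x : X => x ≠ c).card + 1 = Fintype.card X := by
    have h2 : (univ.filter fun x : X => x ≠ c) = univ.erase c := by
      ext x
      simp
    rw [h2, card_erase_of_mem (mem_univ c), card_univ]
    have : 0 < Fintype.card X := Fintype.card_pos
    omega
  have h3 : ((univ.filter fun x : X => x ≠ c).card : ℝ) = Fintype.card X - 1 := by
    rw [← h1]
    push_cast
    ring
  have h4 : ((univ.filter fun x : X => x ≠ c).card : ℝ) / Fintype.card X =
      1 - 1 / Fintype.card X := by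
    rw [h3]
    field_simp
  convert h4

theorem pr_eq {X : Type} [Fintype X] (c : X) : pr (fun x : X => x = c) = 1 / Fintype.card X := by
  classical
  rw [pr_eq_natCard]
  simp

omit [Nonempty D] in
theorem card_word (r : ℕ) : (Fintype.card (Fin r → D) : ℝ) = (Fintype.card D : ℝ) ^ r := by
  rw [Fintype.card_fun, Fintype.card_fin]
  push_cast
  rfl

theorem pr_not_surj {m r : ℕ} (k : ℕ) (τ : Fin r → Fin m) (hτ : Function.Injective τ) :
    pr (fun a : Fin m → Fin k → D => ¬ Function.Surjective (wd a τ)) ≤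
      (Fintype.card D : ℝ) ^ r * (1 - 1 / (Fintype.card D : ℝ) ^ r) ^ k := by
  classical
  have h1 : ∀ c : Fin r → D, pr (fun a : Fin m → Fin k → D => ∀ i, (fun j => a (τ j) i) ≠ c) ≤
      (1 - 1 / (Fintype.card D : ℝ) ^ r) ^ k := by
    intro c
    have h2 := pr_cols (m := Fin m) (D := D) k (fun x => (fun j => x (τ j)) ≠ c)
    have h3 := pr_comp (X := D) τ hτ (fun y => y ≠ c)
    rw [pr_ne, card_word] at h3
    rw [h3] at h2
    exact le_of_eq h2
  have h4 := pr_ex (fun (c : Fin r → D) (a : Fin m → Fin k → D) =>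
    ∀ i, (fun j => a (τ j) i) ≠ c) h1
  rw [card_word] at h4
  refine le_trans (pr_mono ?_) h4
  intro a ha
  by_contra hcon
  push Not at hcon
  apply ha
  intro c
  obtain ⟨i, hi⟩ := hcon c
  exact ⟨i, hi⟩

theorem pr_fac {m r : ℕ} (k : ℕ) (τ : Fin r → Fin m) (hτ : Function.Injective τ) (s : Fin m)
    (hs : ∀ j, s ≠ τ j) :
    pr (fun a : Fin m → Fin k → D => Fac (wd a τ) (a s)) ≤
      (Fintype.card D : ℝ) ^ (Fintype.card D ^ r) * (1 / (Fintype.card D : ℝ)) ^ k := by
  classical
  let σ : Fin r ⊕ Unit → Fin m := Sum.elim τ (fun _ => s)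
  have hσ : Function.Injective σ := by
    rintro (x | x) (y | y) h
    · rw [hτ h]
    · exact absurd h.symm (hs x)
    · exact absurd h (hs y)
    · rfl
  have h1 : ∀ v : (Fin r → D) → D,
      pr (fun a : Fin m → Fin k → D => ∀ i, a s i = v (fun j => a (τ j) i)) ≤
      (1 / (Fintype.card D : ℝ)) ^ k := by
    intro v
    have h2 := pr_cols (m := Fin m) (D := D) k (fun x => x s = v (fun j => x (τ j)))
    have h3 := pr_comp (X := D) σ hσ (fun y => y (Sum.inr ()) = v (fun j => y (Sum.inl j)))
    have h4 := pr_equiv (Equiv.sumArrowEquivProdArrow (Fin r) Unit D)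
      (fun z => z.2 () = v z.1)
    have h5 : pr (fun z : (Fin r → D) × (Unit → D) => z.2 () = v z.1) ≤
        1 / (Fintype.card D : ℝ) := by
      apply pr_prod_le (fun (z1 : Fin r → D) (z2 : Unit → D) => z2 () = v z1) (by positivity)
      intro z1
      have h6 := pr_equiv (Equiv.funUnique Unit D) (fun x => x = v z1)
      rw [pr_eq] at h6
      exact le_of_eq h6
    have h7 : pr (fun x : Fin m → D => x s = v (fun j => x (τ j))) ≤
        1 / (Fintype.card D : ℝ) := by
      refine le_trans (le_of_eq ?_) h5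
      rw [← h4]
      exact h3
    rw [h2]
    exact pow_le_pow_left₀ (pr_nonneg _) h7 k
  have h8 := pr_ex (fun (v : (Fin r → D) → D) (a : Fin m → Fin k → D) =>
    ∀ i, a s i = v (fun j => a (τ j) i)) h1
  have h9 : (Fintype.card ((Fin r → D) → D) : ℝ) = (Fintype.card D : ℝ) ^ (Fintype.card D ^ r) := by
    rw [Fintype.card_fun, Fintype.card_fun, Fintype.card_fin]
    push_cast
    rfl
  rw [h9] at h8
  refine le_trans (pr_mono ?_) h8
  intro a ha
  exact Fac.exists_map ha

theorem pr_link {m r : ℕ} (k : ℕ) (τ τ' : Fin r → Fin m)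
    (hτ : Function.Injective (Sum.elim τ τ')) :
    pr (fun a : Fin m → Fin k → D => Link (wd a τ) (wd a τ')) ≤
      ((2 : ℝ) ^ (Fintype.card D ^ r)) ^ 2 * (1 - 1 / (Fintype.card D : ℝ) ^ r) ^ k := by
  classical
  have hθ : 0 ≤ 1 - 1 / (Fintype.card D : ℝ) ^ r := by
    rw [← card_word, ← pr_ne (fun _ : Fin r => Classical.arbitrary D)]
    exact pr_nonneg _
  have h1 : ∀ S : ((Fin r → D) → Bool) × ((Fin r → D) → Bool),
      pr (fun a : Fin m → Fin k → D => NC S.2 ∧
        ∀ i, S.1 (fun j => a (τ j) i) = S.2 (fun j => a (τ' j) i)) ≤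
      (1 - 1 / (Fintype.card D : ℝ) ^ r) ^ k := by
    intro S
    by_cases hS : NC S.2
    · have h2 := pr_cols (m := Fin m) (D := D) k
        (fun x => S.1 (fun j => x (τ j)) = S.2 (fun j => x (τ' j)))
      have h3 := pr_comp (X := D) (Sum.elim τ τ') hτ
        (fun y => S.1 (fun j => y (Sum.inl j)) = S.2 (fun j => y (Sum.inr j)))
      have h4 := pr_equiv (Equiv.sumArrowEquivProdArrow (Fin r) (Fin r) D)
        (fun z => S.1 z.1 = S.2 z.2)
      have h5 : pr (fun z : (Fin r → D) × (Fin r → D) => S.1 z.1 = S.2 z.2) ≤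
          1 - 1 / (Fintype.card D : ℝ) ^ r := by
        apply pr_prod_le (fun z1 z2 : Fin r → D => S.1 z1 = S.2 z2) hθ
        intro z1
        obtain ⟨c, hc⟩ : ∃ c, S.2 c ≠ S.1 z1 := by
          by_contra hcon
          push Not at hcon
          obtain ⟨i, j, hij⟩ := hS
          exact hij ((hcon i).trans (hcon j).symm)
        refine le_trans (pr_mono (Q := fun z2 => z2 ≠ c) ?_) (le_of_eq ?_)
        · rintro z2 hz rfl
          exact hc hz.symm
        · rw [pr_ne, card_word]
      have h7 : pr (fun x : Fin m → D => S.1 (fun j => x (τ j)) = S.2 (fun j => x (τ' j))) ≤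
          1 - 1 / (Fintype.card D : ℝ) ^ r := by
        refine le_trans (le_of_eq ?_) h5
        rw [← h4]
        exact h3
      refine le_trans (pr_mono (Q := fun a : Fin m → Fin k → D =>
        ∀ i, S.1 (fun j => a (τ j) i) = S.2 (fun j => a (τ' j) i)) (fun a ha => ha.2)) ?_
      rw [h2]
      exact pow_le_pow_left₀ (pr_nonneg _) h7 k
    · rw [pr_false (fun a ha => hS ha.1)]
      exact pow_nonneg hθ k
  have h8 := pr_ex (fun (S : ((Fin r → D) → Bool) × ((Fin r → D) → Bool))
    (a : Fin m → Fin k → D) => NC S.2 ∧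
        ∀ i, S.1 (fun j => a (τ j) i) = S.2 (fun j => a (τ' j) i)) h1
  have h9 : (Fintype.card (((Fin r → D) → Bool) × ((Fin r → D) → Bool)) : ℝ) =
      ((2 : ℝ) ^ (Fintype.card D ^ r)) ^ 2 := by
    rw [Fintype.card_prod, Fintype.card_fun, Fintype.card_fun, Fintype.card_fin,
      Fintype.card_bool]
    push_cast
    ring
  rw [h9] at h8
  refine le_trans (pr_mono ?_) h8
  rintro a ⟨b, ⟨i, j, hij⟩, hb, hb'⟩
  obtain ⟨v, hv⟩ := Fac.exists_map hb
  obtain ⟨v', hv'⟩ := Fac.exists_map hb'
  refine ⟨(v, v'), ⟨wd a τ' i, wd a τ' j, ?_⟩, fun l => ?_⟩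
  · simp only
    rw [← hv', ← hv']
    exact hij
  · exact (hv l).symm.trans (hv' l)

end prob

end Pool.Agent.Q212.BP
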